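import Pool.Agent.Helper82.K3.triApi

/-!
# Triangular case, `lin 0 0 = 1`: second half of T2
-/

set_option autoImplicit false

open Set Filter Topology

namespace Pool.Agent.Helper82.K3.T2lat

open Pool.Agent.Helper77.K3 Pool.Agent.Helper33.K3 Pool.Agent.Helper82.K3.triApi

/-- The hypotheses of `S_T2lat`. -/
structure Dat (D : KData) (g : Aff3) : Prop where
  hT : D.Tri
  h00 : ∀ γ ∈ D.Γ, lin γ 0 0 = 1
  hg : g ∈ D.Γ
  hχ : 1 < lin g 2 2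
  g01 : lin g 0 1 = 0
  g02 : lin g 0 2 = 0
  gt1 : tr g 1 = 0
  gt2 : tr g 2 = 0
  kinv : D.KInv
  gt0 : tr g 0 ≠ 0
  h12 : ∀ γ ∈ D.Γ, lin γ 1 2 = 0

variable {D : KData} {g : Aff3}

theorem Dat.l11 (H : Dat D g) {γ : Aff3} (h : γ ∈ D.Γ) : lin γ 1 1 = (lin γ 2 2)⁻¹ := by
  obtain ⟨-, -, -, -, -, h6, h7⟩ := H.hT γ h
  rw [H.h00 γ h, one_mul] at h7
  exact eq_inv_of_mul_eq_one_left h7

theorem Dat.pos (H : Dat D g) {γ : Aff3} (h : γ ∈ D.Γ) : 0 < lin γ 2 2 := (H.hT γ h).2.2.2.2.2.1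

theorem Dat.a0 (H : Dat D g) {γ : Aff3} (h : γ ∈ D.Γ) (x : E) :
    γ x 0 = x 0 + lin γ 0 1 * x 1 + lin γ 0 2 * x 2 + tr γ 0 := by
  rw [act0, H.h00 γ h, one_mul]

theorem Dat.a1 (H : Dat D g) {γ : Aff3} (h : γ ∈ D.Γ) (x : E) :
    γ x 1 = (lin γ 2 2)⁻¹ * x 1 + tr γ 1 := by
  rw [act1 (H.hT γ h), H.h12 γ h, H.l11 h]; ring

theorem Dat.a2 (H : Dat D g) {γ : Aff3} (h : γ ∈ D.Γ) (x : E) :
    γ x 2 = lin γ 2 2 * x 2 + tr γ 2 := act2 (H.hT γ h) x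

theorem Dat.g0 (H : Dat D g) (x : E) : g x 0 = x 0 + tr g 0 := by
  rw [H.a0 H.hg, H.g01, H.g02]; ring

theorem Dat.g1 (H : Dat D g) (x : E) : g x 1 = (lin g 2 2)⁻¹ * x 1 := by
  rw [H.a1 H.hg, H.gt1]; ring

theorem Dat.g2 (H : Dat D g) (x : E) : g x 2 = lin g 2 2 * x 2 := by
  rw [H.a2 H.hg, H.gt2]; ring

theorem mul_app (γ δ : Aff3) (x : E) : (γ * δ) x = γ (δ x) := rfl

theorem zpow_mem' (H : Dat D g) (k : ℤ) : g ^ k ∈ D.Γ := zpow_mem H.hg k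

/-- Iteration of a scaling. -/
theorem iter_scal (g : Aff3) (f : E → ℝ) (a : ℝ) (ha : a ≠ 0) (h : ∀ x, f (g x) = a * f x) (k : ℤ)
    (x : E) : f ((g ^ k) x) = a ^ k * f x := by
  induction k with
  | zero => simp
  | succ i ih =>
    rw [add_comm, zpow_add, zpow_one, mul_app, h, ih, zpow_add₀ ha, zpow_one]
    ring
  | pred i ih =>
    have e1 : g ^ (-(i : ℤ)) = g * g ^ (-(i : ℤ) - 1) := by
      rw [← zpow_one_add]; congr 1; ring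
    rw [e1, mul_app, h] at ih
    rw [zpow_sub_one₀ ha]
    field_simp
    rw [← ih]; ring

theorem iter_add (g : Aff3) (f : E → ℝ) (a : ℝ) (h : ∀ x, f (g x) = f x + a) (k : ℤ)
    (x : E) : f ((g ^ k) x) = f x + k * a := by
  induction k with
  | zero => simp
  | succ i ih =>
    rw [add_comm, zpow_add, zpow_one, mul_app, h, ih]
    push_cast
    ring
  | pred i ih =>
    have e1 : g ^ (-(i : ℤ)) = g * g ^ (-(i : ℤ) - 1) := by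
      rw [← zpow_one_add]; congr 1; ring
    rw [e1, mul_app, h] at ih
    push_cast at ih ⊢
    linarith

theorem Dat.gk0 (H : Dat D g) (k : ℤ) (x : E) : (g ^ k) x 0 = x 0 + k * tr g 0 :=
  iter_add g (fun x => x 0) _ H.g0 k x

theorem Dat.gk1 (H : Dat D g) (k : ℤ) (x : E) : (g ^ k) x 1 = (lin g 2 2)⁻¹ ^ k * x 1 :=
  iter_scal g (fun x => x 1) _ (inv_ne_zero (H.pos H.hg).ne') H.g1 k x

theorem Dat.gk2 (H : Dat D g) (k : ℤ) (x : E) : (g ^ k) x 2 = (lin g 2 2) ^ k * x 2 :=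
  iter_scal g (fun x => x 2) _ (H.pos H.hg).ne' H.g2 k x

theorem lin22_mul (H : Dat D g) {γ δ : Aff3} (h : γ ∈ D.Γ) (h' : δ ∈ D.Γ) :
    lin (γ * δ) 2 2 = lin γ 2 2 * lin δ 2 2 := mul22 (H.hT γ h) (H.hT δ h')

theorem lin22_zpow (H : Dat D g) {γ : Aff3} (h : γ ∈ D.Γ) (k : ℤ) :
    lin (γ ^ k) 2 2 = lin γ 2 2 ^ k := by
  have := map_zpow (chi D H.hT 2) ⟨γ, h⟩ k
  simpa [chi_apply] using this

theorem lin22_inv (H : Dat D g) {γ : Aff3} (h : γ ∈ D.Γ) :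
    lin γ⁻¹ 2 2 = (lin γ 2 2)⁻¹ := by
  have := lin22_zpow H h (-1)
  simpa using this

/-- Elements acting trivially on the plane of the last two coordinates. -/
theorem nv (hF2 : S_F2) (H : Dat D g) {γ : Aff3} (h : γ ∈ D.Γ) (h2 : lin γ 2 2 = 1)
    (t1 : tr γ 1 = 0) (t2 : tr γ 2 = 0) : lin γ 0 1 = 0 ∧ lin γ 0 2 = 0 := by
  by_contra hcon
  have ha : (![0, lin γ 0 1, lin γ 0 2] : E) ≠ 0 := by
    intro h0
    apply hcon
    exact ⟨by simpa using congrFun h0 1, by simpa using congrFun h0 2⟩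
  obtain ⟨x, hx, hx2⟩ := hF2 D ![0, lin γ 0 1, lin γ 0 2] (-tr γ 0) ha
  simp at hx2
  have hfix : γ x = x := by
    ext i
    fin_cases i
    · show γ x 0 = x 0
      rw [H.a0 h]; linarith
    · show γ x 1 = x 1
      rw [H.a1 h, h2, t1]; ring
    · show γ x 2 = x 2
      rw [H.a2 h, h2, t2]; ring
  have := D.free γ h x hx hfix
  apply hcon
  rw [this]
  simp [lin_one]

/-- The action of elements with `lin 2 2 = 1`. -/
theorem n1 (H : Dat D g) {γ : Aff3} (h : γ ∈ D.Γ) (h2 : lin γ 2 2 = 1) (x : E) :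
    γ x 1 = x 1 + tr γ 1 := by
  rw [H.a1 h, h2]; ring

theorem n2 (H : Dat D g) {γ : Aff3} (h : γ ∈ D.Γ) (h2 : lin γ 2 2 = 1) (x : E) :
    γ x 2 = x 2 + tr γ 2 := by
  rw [H.a2 h, h2]; ring

/-- The subgroup of elements with `lin 2 2 = 1`. -/
def NN (H : Dat D g) : Subgroup D.Γ := (chi D H.hT 2).ker

theorem mem_NN (H : Dat D g) (γ : D.Γ) : γ ∈ NN H ↔ lin γ.1 2 2 = 1 := by
  rw [NN, MonoidHom.mem_ker, chi_apply]

/-- The translation homomorphisms. -/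
def ss (H : Dat D g) (i : Fin 3) (hi : i = 1 ∨ i = 2) : NN H →* Multiplicative ℝ where
  toFun γ := Multiplicative.ofAdd (tr γ.1.1 i)
  map_one' := by
    show Multiplicative.ofAdd (tr 1 i) = 1
    rw [tr_one]; rfl
  map_mul' γ δ := by
    show Multiplicative.ofAdd (tr (γ.1.1 * δ.1.1) i) = _
    rw [← ofAdd_add]
    congr 1
    have e1 : tr (γ.1.1 * δ.1.1) i = γ.1.1 (δ.1.1 0) i := rfl
    rw [e1]
    rcases hi with rfl | rfl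
    · rw [n1 H γ.1.2 ((mem_NN H _).1 γ.2)]
      rw [add_comm]; rfl
    · rw [n2 H γ.1.2 ((mem_NN H _).1 γ.2)]
      rw [add_comm]; rfl

/-- The element `τ₁ ^ m τ₂ ^ n`. -/
theorem lat_elt (H : Dat D g) {τ₁ τ₂ : Aff3} (h1 : τ₁ ∈ D.Γ) (h2 : τ₂ ∈ D.Γ)
    (l1 : lin τ₁ 2 2 = 1) (l2 : lin τ₂ 2 2 = 1) (m n : ℤ) :
    lin (τ₁ ^ m * τ₂ ^ n) 2 2 = 1 ∧
    tr (τ₁ ^ m * τ₂ ^ n) 1 = m * tr τ₁ 1 + n * tr τ₂ 1 ∧
    tr (τ₁ ^ m * τ₂ ^ n) 2 = m * tr τ₁ 2 + n * tr τ₂ 2 := by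
  let t1 : NN H := ⟨⟨τ₁, h1⟩, (mem_NN H _).2 l1⟩
  let t2 : NN H := ⟨⟨τ₂, h2⟩, (mem_NN H _).2 l2⟩
  have hmem : lin (τ₁ ^ m * τ₂ ^ n) 2 2 = 1 := (mem_NN H _).1 (t1 ^ m * t2 ^ n).2
  refine ⟨hmem, ?_, ?_⟩
  · have := congrArg Multiplicative.toAdd
      ((map_mul (ss H 1 (Or.inl rfl)) (t1 ^ m) (t2 ^ n)).trans
        (by rw [map_zpow, map_zpow]))
    simpa [ss] using this
  · have := congrArg Multiplicative.toAdd
      ((map_mul (ss H 2 (Or.inr rfl)) (t1 ^ m) (t2 ^ n)).trans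
        (by rw [map_zpow, map_zpow]))
    simpa [ss] using this

theorem n1inv (H : Dat D g) {γ : Aff3} (h : γ ∈ D.Γ) (h2 : lin γ 2 2 = 1) (x : E) :
    γ⁻¹ x 1 = x 1 - tr γ 1 := by
  have : (γ * γ⁻¹) x 1 = γ⁻¹ x 1 + tr γ 1 := by rw [mul_app, n1 H h h2]
  rw [mul_inv_cancel] at this
  have e1 : (1 : Aff3) x = x := rfl
  rw [e1] at this
  linarith

theorem n2inv (H : Dat D g) {γ : Aff3} (h : γ ∈ D.Γ) (h2 : lin γ 2 2 = 1) (x : E) :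
    γ⁻¹ x 2 = x 2 - tr γ 2 := by
  have : (γ * γ⁻¹) x 2 = γ⁻¹ x 2 + tr γ 2 := by rw [mul_app, n2 H h h2]
  rw [mul_inv_cancel] at this
  have e1 : (1 : Aff3) x = x := rfl
  rw [e1] at this
  linarith

/-- A point of the domain which is rational for the lattice. -/
theorem rat_point (D : KData) (p1 p2 r1 r2 : ℝ) (hdet : p1 * r2 - p2 * r1 ≠ 0) :
    ∃ P ∈ D.Ω, ∃ (m : ℕ) (i j : ℤ), m ≠ 0 ∧ m * P 1 = i * p1 + j * r1 ∧
      m * P 2 = i * p2 + j * r2 := by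
  obtain ⟨P0, hP0⟩ := D.conn.nonempty
  let f : ℝ × ℝ → E := fun w => ![P0 0, w.1 * p1 + w.2 * r1, w.1 * p2 + w.2 * r2]
  have hf : Continuous f := by
    refine continuous_pi fun i => ?_
    fin_cases i <;> simp [f] <;> fun_prop
  have hopen : IsOpen (f ⁻¹' D.Ω) := D.isOpen.preimage hf
  have hne : (f ⁻¹' D.Ω).Nonempty := by
    refine ⟨((P0 1 * r2 - P0 2 * r1) / (p1 * r2 - p2 * r1),
      (p1 * P0 2 - p2 * P0 1) / (p1 * r2 - p2 * r1)), ?_⟩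
    have : f ((P0 1 * r2 - P0 2 * r1) / (p1 * r2 - p2 * r1),
      (p1 * P0 2 - p2 * P0 1) / (p1 * r2 - p2 * r1)) = P0 := by
      ext i
      fin_cases i
      · rfl
      · show (P0 1 * r2 - P0 2 * r1) / (p1 * r2 - p2 * r1) * p1 +
          (p1 * P0 2 - p2 * P0 1) / (p1 * r2 - p2 * r1) * r1 = P0 1
        rw [div_mul_eq_mul_div, div_mul_eq_mul_div, ← add_div, div_eq_iff hdet]
        ring
      · show (P0 1 * r2 - P0 2 * r1) / (p1 * r2 - p2 * r1) * p2 +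
          (p1 * P0 2 - p2 * P0 1) / (p1 * r2 - p2 * r1) * r2 = P0 2
        rw [div_mul_eq_mul_div, div_mul_eq_mul_div, ← add_div, div_eq_iff hdet]
        ring
    rw [mem_preimage, this]
    exact hP0
  have hd : DenseRange (Prod.map ((↑) : ℚ → ℝ) ((↑) : ℚ → ℝ)) :=
    Rat.denseRange_cast.prodMap Rat.denseRange_cast
  obtain ⟨⟨u, v⟩, huv⟩ := hd.exists_mem_open hopen hne
  refine ⟨f ((u : ℝ), (v : ℝ)), huv, u.den * v.den, u.num * v.den, v.num * u.den, ?_, ?_, ?_⟩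
  · exact mul_ne_zero u.den_nz v.den_nz
  · have hu : (u : ℝ) * u.den = u.num := by exact_mod_cast Rat.mul_den_eq_num u
    have hv : (v : ℝ) * v.den = v.num := by exact_mod_cast Rat.mul_den_eq_num v
    show ((u.den * v.den : ℕ) : ℝ) * ((u : ℝ) * p1 + (v : ℝ) * r1) = _
    push_cast
    rw [← hu, ← hv]
    ring
  · have hu : (u : ℝ) * u.den = u.num := by exact_mod_cast Rat.mul_den_eq_num u
    have hv : (v : ℝ) * v.den = v.num := by exact_mod_cast Rat.mul_den_eq_num v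
    show ((u.den * v.den : ℕ) : ℝ) * ((u : ℝ) * p2 + (v : ℝ) * r2) = _
    push_cast
    rw [← hu, ← hv]
    ring

/-- An element of the group with `lin 2 2 ≠ 1` preserving the vertical line over a point of the
domain. -/
theorem exists_delta (H : Dat D g) {τ₁ τ₂ : Aff3} (h1 : τ₁ ∈ D.Γ) (h2 : τ₂ ∈ D.Γ)
    (l1 : lin τ₁ 2 2 = 1) (l2 : lin τ₂ 2 2 = 1)
    (hdet : tr τ₁ 1 * tr τ₂ 2 - tr τ₁ 2 * tr τ₂ 1 ≠ 0)
    (hlat : ∀ τ ∈ D.Γ, lin τ 2 2 = 1 → ∃ m n : ℤ, tr τ 1 = m * tr τ₁ 1 + n * tr τ₂ 1 ∧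
        tr τ 2 = m * tr τ₁ 2 + n * tr τ₂ 2) :
    ∃ P ∈ D.Ω, ∃ δ ∈ D.Γ, lin δ 2 2 ≠ 1 ∧ ∀ x : E, x 1 = P 1 → x 2 = P 2 →
      δ x 1 = P 1 ∧ δ x 2 = P 2 := by
  obtain ⟨P, hP, m, i, j, hm, hP1, hP2⟩ := rat_point D _ _ _ _ hdet
  set σ := τ₁ ^ i * τ₂ ^ j with hσ
  obtain ⟨ls, ts1, ts2⟩ := lat_elt H h1 h2 l1 l2 i j
  rw [← hσ] at ls ts1 ts2
  have hσm : σ ∈ D.Γ := mul_mem (zpow_mem h1 i) (zpow_mem h2 j)
  have key : ∀ k : ℕ, ∃ a b : ℤ, (lin g 2 2)⁻¹ ^ k * (m * P 1) = a * tr τ₁ 1 + b * tr τ₂ 1 ∧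
      (lin g 2 2) ^ k * (m * P 2) = a * tr τ₁ 2 + b * tr τ₂ 2 := by
    intro k
    have hmem : g ^ (k : ℤ) * σ * g ^ (-(k : ℤ)) ∈ D.Γ :=
      mul_mem (mul_mem (zpow_mem H.hg _) hσm) (zpow_mem H.hg _)
    have hl : lin (g ^ (k : ℤ) * σ * g ^ (-(k : ℤ))) 2 2 = 1 := by
      rw [lin22_mul H (mul_mem (zpow_mem H.hg _) hσm) (zpow_mem H.hg _),
        lin22_mul H (zpow_mem H.hg _) hσm, lin22_zpow H H.hg, lin22_zpow H H.hg, ls, mul_one,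
        ← zpow_add₀ (H.pos H.hg).ne', add_neg_cancel, zpow_zero]
    obtain ⟨a, b, ha, hb⟩ := hlat _ hmem hl
    refine ⟨a, b, ?_, ?_⟩
    · rw [← ha]
      show _ = (g ^ (k : ℤ)) (σ ((g ^ (-(k : ℤ))) 0)) 1
      rw [H.gk1, n1 H hσm ls, H.gk1, hP1, ts1]
      simp
    · rw [← hb]
      show _ = (g ^ (k : ℤ)) (σ ((g ^ (-(k : ℤ))) 0)) 2
      rw [H.gk2, n2 H hσm ls, H.gk2, hP2, ts2]
      simp
  choose a b hab1 hab2 using key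
  have : NeZero m := ⟨hm⟩
  obtain ⟨k, l, hkl, hkl2⟩ := Finite.exists_ne_map_eq_of_infinite
    (fun k : ℕ => ((a k : ZMod m), (b k : ZMod m)))
  have hm0 : (m : ℝ) ≠ 0 := by exact_mod_cast hm
  simp only [Prod.mk.injEq] at hkl2
  obtain ⟨⟨A, hA⟩, ⟨B, hB⟩⟩ := And.intro ((ZMod.intCast_eq_intCast_iff_dvd_sub _ _ _).1 hkl2.1)
    ((ZMod.intCast_eq_intCast_iff_dvd_sub _ _ _).1 hkl2.2)
  set ρ := τ₁ ^ A * τ₂ ^ B with hρ
  obtain ⟨lr, tr1, tr2⟩ := lat_elt H h1 h2 l1 l2 A B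
  rw [← hρ] at lr tr1 tr2
  have hρm : ρ ∈ D.Γ := mul_mem (zpow_mem h1 A) (zpow_mem h2 B)
  have hA' : (a l : ℝ) - a k = m * A := by exact_mod_cast hA
  have hB' : (b l : ℝ) - b k = m * B := by exact_mod_cast hB
  have er1 : tr ρ 1 = (lin g 2 2)⁻¹ ^ l * P 1 - (lin g 2 2)⁻¹ ^ k * P 1 := by
    have e1 : (m : ℝ) * tr ρ 1 = m * ((lin g 2 2)⁻¹ ^ l * P 1 - (lin g 2 2)⁻¹ ^ k * P 1) := by
      rw [tr1]
      linear_combination (-tr τ₁ 1) * hA' + (-tr τ₂ 1) * hB' - hab1 l + hab1 k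
    exact mul_left_cancel₀ hm0 e1
  have er2 : tr ρ 2 = (lin g 2 2) ^ l * P 2 - (lin g 2 2) ^ k * P 2 := by
    have e1 : (m : ℝ) * tr ρ 2 = m * ((lin g 2 2) ^ l * P 2 - (lin g 2 2) ^ k * P 2) := by
      rw [tr2]
      linear_combination (-tr τ₁ 2) * hA' + (-tr τ₂ 2) * hB' - hab2 l + hab2 k
    exact mul_left_cancel₀ hm0 e1
  have hχ0 : lin g 2 2 ≠ 0 := (H.pos H.hg).ne'
  refine ⟨P, hP, g ^ (-(k : ℤ)) * (ρ⁻¹ * g ^ (l : ℤ)),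
    mul_mem (zpow_mem H.hg _) (mul_mem (inv_mem hρm) (zpow_mem H.hg _)), ?_, ?_⟩
  · rw [lin22_mul H (zpow_mem H.hg _) (mul_mem (inv_mem hρm) (zpow_mem H.hg _)),
      lin22_mul H (inv_mem hρm) (zpow_mem H.hg _), lin22_zpow H H.hg, lin22_zpow H H.hg,
      lin22_inv H hρm, lr, inv_one, one_mul, ← zpow_add₀ hχ0]
    intro h0
    have := (zpow_eq_one_iff_right₀ (H.pos H.hg).le H.hχ.ne').1 h0
    omega
  · intro x hx1 hx2
    constructor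
    · rw [mul_app, mul_app, H.gk1, n1inv H hρm lr, H.gk1, hx1, er1]
      simp only [zpow_natCast, zpow_neg, inv_pow, inv_inv]
      field_simp
      ring
    · rw [mul_app, mul_app, H.gk2, n2inv H hρm lr, H.gk2, hx2, er2]
      simp only [zpow_natCast, zpow_neg]
      field_simp
      ring

/-- There are no translations in the direction `e 0`. -/
theorem no_vert (hF2 : S_F2) (H : Dat D g) {τ₁ τ₂ : Aff3} (h1 : τ₁ ∈ D.Γ) (h2 : τ₂ ∈ D.Γ)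
    (l1 : lin τ₁ 2 2 = 1) (l2 : lin τ₂ 2 2 = 1)
    (hdet : tr τ₁ 1 * tr τ₂ 2 - tr τ₁ 2 * tr τ₂ 1 ≠ 0)
    (hlat : ∀ τ ∈ D.Γ, lin τ 2 2 = 1 → ∃ m n : ℤ, tr τ 1 = m * tr τ₁ 1 + n * tr τ₂ 1 ∧
        tr τ 2 = m * tr τ₁ 2 + n * tr τ₂ 2) {ν : Aff3} (hν : ν ∈ D.Γ) (lν : lin ν 2 2 = 1)
    (tν1 : tr ν 1 = 0) (tν2 : tr ν 2 = 0) : ν = 1 := by
  by_contra hne
  obtain ⟨n01, n02⟩ := nv hF2 H hν lν tν1 tν2
  have hβ : tr ν 0 ≠ 0 := by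
    intro h0
    apply hne
    exact eq_one (H.hT _ hν) (H.h00 _ hν) (by rw [H.l11 hν, lν, inv_one]) lν n01 n02
      (H.h12 _ hν) h0 tν1 tν2
  obtain ⟨P, hP, δ, hδ, lδ, hfix⟩ := exists_delta H h1 h2 l1 l2 hdet hlat
  set β := tr ν 0 with hβd
  set c' := lin δ 0 1 * P 1 + lin δ 0 2 * P 2 + tr δ 0 with hc'
  -- the action of powers
  have aδ : ∀ (k : ℕ) (x : E), x 1 = P 1 → x 2 = P 2 →
      (δ ^ k) x 0 = x 0 + k * c' ∧ (δ ^ k) x 1 = P 1 ∧ (δ ^ k) x 2 = P 2 := by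
    intro k
    induction k with
    | zero => intro x hx1 hx2; simp [hx1, hx2]
    | succ k ih =>
      intro x hx1 hx2
      obtain ⟨f1, f2⟩ := hfix x hx1 hx2
      obtain ⟨i0, i1, i2⟩ := ih (δ x) f1 f2
      rw [pow_succ, mul_app]
      refine ⟨?_, i1, i2⟩
      rw [i0, H.a0 hδ, hx1, hx2, hc']
      push_cast
      ring
  have aν : ∀ (k : ℤ) (x : E), (ν ^ k) x 0 = x 0 + k * β ∧ (ν ^ k) x 1 = x 1 ∧
      (ν ^ k) x 2 = x 2 := by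
    intro k x
    refine ⟨?_, ?_, ?_⟩
    · apply iter_add ν (fun x => x 0)
      intro x
      show ν x 0 = x 0 + β
      rw [H.a0 hν, n01, n02, hβd]; ring
    · have := iter_add ν (fun x => x 1) 0 (fun x => by
        show ν x 1 = x 1 + 0
        rw [n1 H hν lν, tν1]) k x
      simpa using this
    · have := iter_add ν (fun x => x 2) 0 (fun x => by
        show ν x 2 = x 2 + 0
        rw [n2 H hν lν, tν2]) k x
      simpa using this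
  let C : Set E := (fun r : ℝ => P + (r * β) • e 0) '' Icc 0 1
  have hC : IsCompact C := by
    apply isCompact_Icc.image
    fun_prop
  have hCΩ : C ⊆ D.Ω := by
    rintro x ⟨r, -, rfl⟩
    by_contra hcon
    have hK : P + (r * β) • e 0 ∈ D.K := hcon
    have := H.kinv _ hK (-(r * β))
    rw [add_assoc, ← add_smul] at this
    simp only [add_neg_cancel, zero_smul, add_zero] at this
    exact this hP
  have hfin := D.proper C hCΩ hC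
  have hχ : ∀ k : ℕ, lin (ν ^ (-⌊k * c' / β⌋) * δ ^ k) 2 2 = lin δ 2 2 ^ k := by
    intro k
    rw [lin22_mul H (zpow_mem hν _) (pow_mem hδ _), lin22_zpow H hν, lν, one_zpow, one_mul]
    exact_mod_cast lin22_zpow H hδ k
  have hinj : Function.Injective (fun k : ℕ => ν ^ (-⌊k * c' / β⌋) * δ ^ k) := by
    intro k l hkl
    have := congrArg (fun γ : Aff3 => lin γ 2 2) hkl
    simp only [hχ] at this
    exact pow_right_injective₀ (H.pos hδ) lδ this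
  refine (Set.infinite_of_injective_forall_mem hinj fun k => ?_) hfin
  refine ⟨mul_mem (zpow_mem hν _) (pow_mem hδ _), ?_⟩
  obtain ⟨i0, i1, i2⟩ := aδ k P rfl rfl
  obtain ⟨j0, j1, j2⟩ := aν (-⌊k * c' / β⌋) ((δ ^ k) P)
  refine ⟨(ν ^ (-⌊k * c' / β⌋) * δ ^ k) P, ⟨P, ⟨0, by simp, by simp⟩, rfl⟩,
    ⟨k * c' / β - ⌊k * c' / β⌋, ⟨by linarith [Int.floor_le (k * c' / β)],
      by linarith [Int.lt_floor_add_one (k * c' / β)]⟩, ?_⟩⟩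
  ext i
  fin_cases i
  · show (P + ((k * c' / β - ⌊k * c' / β⌋) * β) • e 0) 0 = (ν ^ (-⌊k * c' / β⌋)) ((δ ^ k) P) 0
    rw [j0, i0]
    have hcan : k * c' / β * β = k * c' := div_mul_cancel₀ _ hβ
    generalize ⌊k * c' / β⌋ = q
    simp only [e, Pi.add_apply, Pi.smul_apply, Pi.single_eq_same, smul_eq_mul, mul_one]
    push_cast
    linear_combination hcan
  · show (P + ((k * c' / β - ⌊k * c' / β⌋) * β) • e 0) 1 = (ν ^ (-⌊k * c' / β⌋)) ((δ ^ k) P) 1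
    rw [j1, i1]
    simp [e]
  · show (P + ((k * c' / β - ⌊k * c' / β⌋) * β) • e 0) 2 = (ν ^ (-⌊k * c' / β⌋)) ((δ ^ k) P) 2
    rw [j2, i2]
    simp [e]

/-- The hypotheses on the lattice of translation parts. -/
structure Lat (D : KData) (τ₁ τ₂ : Aff3) : Prop where
  h1 : τ₁ ∈ D.Γ
  h2 : τ₂ ∈ D.Γ
  l1 : lin τ₁ 2 2 = 1
  l2 : lin τ₂ 2 2 = 1
  hdet : tr τ₁ 1 * tr τ₂ 2 - tr τ₁ 2 * tr τ₂ 1 ≠ 0
  hlat : ∀ τ ∈ D.Γ, lin τ 2 2 = 1 → ∃ m n : ℤ, tr τ 1 = m * tr τ₁ 1 + n * tr τ₂ 1 ∧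
        tr τ 2 = m * tr τ₁ 2 + n * tr τ₂ 2
  inj : ∀ ν ∈ D.Γ, lin ν 2 2 = 1 → tr ν 1 = 0 → tr ν 2 = 0 → ν = 1

variable {τ₁ τ₂ : Aff3}

/-- Every element with `lin 2 2 = 1` is a product of powers of `τ₁`, `τ₂`. -/
theorem Lat.eq (L : Lat D τ₁ τ₂) (H : Dat D g) {τ : Aff3} (h : τ ∈ D.Γ) (h2 : lin τ 2 2 = 1)
    {m n : ℤ} (e1 : tr τ 1 = m * tr τ₁ 1 + n * tr τ₂ 1) (e2 : tr τ 2 = m * tr τ₁ 2 + n * tr τ₂ 2) :
    τ = τ₁ ^ m * τ₂ ^ n := by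
  obtain ⟨a1, a2, a3⟩ := lat_elt H L.h1 L.h2 L.l1 L.l2 m n
  set ρ := τ₁ ^ m * τ₂ ^ n with hρ
  have hρm : ρ ∈ D.Γ := mul_mem (zpow_mem L.h1 m) (zpow_mem L.h2 n)
  have : ρ⁻¹ * τ = 1 := by
    apply L.inj _ (mul_mem (inv_mem hρm) h)
    · rw [lin22_mul H (inv_mem hρm) h, lin22_inv H hρm, a1, h2]; norm_num
    · show ρ⁻¹ (τ 0) 1 = 0
      rw [n1inv H hρm a1, n1 H h h2, e1, a2]; simp
    · show ρ⁻¹ (τ 0) 2 = 0
      rw [n2inv H hρm a1, n2 H h h2, e2, a3]; simp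
  exact (inv_mul_eq_one.1 this).symm

/-- Additive functions are linear in the translation part. -/
theorem Lat.addlin (L : Lat D τ₁ τ₂) (H : Dat D g) (f : NN H →* Multiplicative ℝ) :
    ∃ a b : ℝ, ∀ τ : NN H, Multiplicative.toAdd (f τ) = a * tr τ.1.1 1 + b * tr τ.1.1 2 := by
  let t1 : NN H := ⟨⟨τ₁, L.h1⟩, (mem_NN H _).2 L.l1⟩
  let t2 : NN H := ⟨⟨τ₂, L.h2⟩, (mem_NN H _).2 L.l2⟩
  set f1 := Multiplicative.toAdd (f t1) with hf1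
  set f2 := Multiplicative.toAdd (f t2) with hf2
  set det := tr τ₁ 1 * tr τ₂ 2 - tr τ₁ 2 * tr τ₂ 1 with hdet
  have hd := L.hdet
  rw [← hdet] at hd
  refine ⟨(f1 * tr τ₂ 2 - f2 * tr τ₁ 2) / det, (tr τ₁ 1 * f2 - tr τ₂ 1 * f1) / det, ?_⟩
  intro τ
  obtain ⟨m, n, e1, e2⟩ := L.hlat τ.1.1 τ.1.2 ((mem_NN H _).1 τ.2)
  have hτ : τ = t1 ^ m * t2 ^ n := by
    apply Subtype.ext
    apply Subtype.ext
    exact L.eq H τ.1.2 ((mem_NN H _).1 τ.2) e1 e2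
  have hval : Multiplicative.toAdd (f τ) = m * f1 + n * f2 := by
    have := congrArg Multiplicative.toAdd (congrArg f hτ)
    rw [map_mul, map_zpow, map_zpow, toAdd_mul, toAdd_zpow, toAdd_zpow] at this
    simpa [hf1, hf2] using this
  rw [hval, e1, e2, div_mul_eq_mul_div, div_mul_eq_mul_div, ← add_div, eq_div_iff hd, hdet]
  ring

/-- The two upper entries are homomorphisms. -/
def homA (H : Dat D g) (i : Fin 3) (hi : i = 1 ∨ i = 2) : NN H →* Multiplicative ℝ where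
  toFun γ := Multiplicative.ofAdd (lin γ.1.1 0 i)
  map_one' := by
    show Multiplicative.ofAdd (lin 1 0 i) = 1
    rcases hi with rfl | rfl <;> simp [lin_one]
  map_mul' γ δ := by
    show Multiplicative.ofAdd (lin (γ.1.1 * δ.1.1) 0 i) = _
    rw [← ofAdd_add]
    congr 1
    have hγ := H.hT _ γ.1.2
    have hδ := H.hT _ δ.1.2
    rcases hi with rfl | rfl
    · rw [mul01 hγ hδ, H.h00 _ γ.1.2, H.l11 δ.1.2, (mem_NN H _).1 δ.2]; ring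
    · rw [mul02 hγ hδ, H.h00 _ γ.1.2, H.h12 _ δ.1.2, (mem_NN H _).1 δ.2]; ring

theorem conj_mem (H : Dat D g) (τ : NN H) : lin (g * τ.1.1 * g⁻¹) 2 2 = 1 := by
  rw [lin22_mul H (mul_mem H.hg τ.1.2) (inv_mem H.hg), lin22_mul H H.hg τ.1.2, lin22_inv H H.hg,
    (mem_NN H _).1 τ.2, mul_one]
  exact mul_inv_cancel₀ (H.pos H.hg).ne'

/-- Conjugation by `g`. -/
def cj (H : Dat D g) (τ : NN H) : NN H :=
  ⟨⟨g * τ.1.1 * g⁻¹, mul_mem (mul_mem H.hg τ.1.2) (inv_mem H.hg)⟩, (mem_NN H _).2 (conj_mem H τ)⟩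

theorem ginv (H : Dat D g) : tr g⁻¹ 0 = -tr g 0 ∧ tr g⁻¹ 1 = 0 ∧ tr g⁻¹ 2 = 0 ∧
    lin g⁻¹ 0 1 = 0 ∧ lin g⁻¹ 0 2 = 0 := by
  have hi : g⁻¹ ∈ D.Γ := inv_mem H.hg
  have e1 : g * g⁻¹ = 1 := mul_inv_cancel g
  have hg' := H.hT _ H.hg
  have hi' := H.hT _ hi
  have p := H.pos H.hg
  have q0 := mulT0 hg' hi'
  have q1 := mulT1 hg' hi'
  have q2 := mulT2 hg' hi'
  have q3 := mul01 hg' hi'
  have q4 := mul02 hg' hi'
  rw [e1] at q0 q1 q2 q3 q4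
  simp only [tr_one, lin_one, H.h00 _ H.hg, H.g01, H.g02, H.gt1, H.gt2, H.h12 _ H.hg,
    H.l11 H.hg] at q0 q1 q2 q3 q4
  refine ⟨by linarith, ?_, ?_, ?_, ?_⟩
  · have : (lin g 2 2)⁻¹ * tr g⁻¹ 1 = 0 := by linarith
    rcases mul_eq_zero.1 this with h | h
    · exact absurd h (inv_ne_zero p.ne')
    · exact h
  · have : lin g 2 2 * tr g⁻¹ 2 = 0 := by linarith
    rcases mul_eq_zero.1 this with h | h
    · exact absurd h p.ne'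
    · exact h
  · simpa using q3.symm
  · simpa using q4.symm

theorem cj_vals (H : Dat D g) (τ : NN H) :
    tr (cj H τ).1.1 1 = (lin g 2 2)⁻¹ * tr τ.1.1 1 ∧ tr (cj H τ).1.1 2 = lin g 2 2 * tr τ.1.1 2 ∧
    lin (cj H τ).1.1 0 1 = lin g 2 2 * lin τ.1.1 0 1 ∧
    lin (cj H τ).1.1 0 2 = (lin g 2 2)⁻¹ * lin τ.1.1 0 2 ∧ tr (cj H τ).1.1 0 = tr τ.1.1 0 := by
  have hτ := (mem_NN H _).1 τ.2
  have hτ1 : lin τ.1.1 1 1 = 1 := by rw [H.l11 τ.1.2, hτ, inv_one]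
  have hi : g⁻¹ ∈ D.Γ := inv_mem H.hg
  have hg' := H.hT _ H.hg
  have hi' := H.hT _ hi
  have ht' := H.hT _ τ.1.2
  have hgt := mul_tri hg' ht'
  have p := H.pos H.hg
  obtain ⟨i0, i1, i2, i3, i4⟩ := ginv H
  have j2 : lin g⁻¹ 2 2 = (lin g 2 2)⁻¹ := lin22_inv H H.hg
  have j1 : lin g⁻¹ 1 1 = lin g 2 2 := by rw [H.l11 hi, j2, inv_inv]
  have j0 : lin g⁻¹ 0 0 = 1 := H.h00 _ hi
  have j12 : lin g⁻¹ 1 2 = 0 := H.h12 _ hi
  have k0 : lin g 0 0 = 1 := H.h00 _ H.hg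
  have k1 : lin g 1 1 = (lin g 2 2)⁻¹ := H.l11 H.hg
  have k12 : lin g 1 2 = 0 := H.h12 _ H.hg
  have t12 : lin τ.1.1 1 2 = 0 := H.h12 _ τ.1.2
  have t0 : lin τ.1.1 0 0 = 1 := H.h00 _ τ.1.2
  refine ⟨?_, ?_, ?_, ?_, ?_⟩
  · show tr (g * τ.1.1 * g⁻¹) 1 = _
    rw [mulT1 hgt hi', mulT1 hg' ht', i1, i2, H.gt1, k1, k12]; ring
  · show tr (g * τ.1.1 * g⁻¹) 2 = _
    rw [mulT2 hgt hi', mulT2 hg' ht', i2, H.gt2]; ring
  · show lin (g * τ.1.1 * g⁻¹) 0 1 = _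
    rw [mul01 hgt hi', mul01 hg' ht', i3, j1, k0, H.g01]; ring
  · show lin (g * τ.1.1 * g⁻¹) 0 2 = _
    rw [mul02 hgt hi', mul02 hg' ht', mul01 hg' ht', i4, j2, j12, k0, H.g01, H.g02, t12]; ring
  · show tr (g * τ.1.1 * g⁻¹) 0 = _
    rw [mulT0 hgt hi', mulT0 hg' ht', mul00 hg' ht', mul01 hg' ht', mul02 hg' ht', i0, i1, i2, k0,
      t0, H.g01, H.g02, t12]
    ring

/-- The constant `κ`. -/
theorem exists_kappa (L : Lat D τ₁ τ₂) (H : Dat D g) : ∃ κ : ℝ, ∀ τ : NN H,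
    lin τ.1.1 0 1 = κ * tr τ.1.1 2 ∧ lin τ.1.1 0 2 = κ * tr τ.1.1 1 ∧
      tr τ.1.1 0 = κ * tr τ.1.1 1 * tr τ.1.1 2 := by
  let t1 : NN H := ⟨⟨τ₁, L.h1⟩, (mem_NN H _).2 L.l1⟩
  let t2 : NN H := ⟨⟨τ₂, L.h2⟩, (mem_NN H _).2 L.l2⟩
  obtain ⟨a11, a12, hA⟩ := L.addlin H (homA H 1 (Or.inl rfl))
  obtain ⟨a21, a22, hB⟩ := L.addlin H (homA H 2 (Or.inr rfl))
  have hA' : ∀ τ : NN H, lin τ.1.1 0 1 = a11 * tr τ.1.1 1 + a12 * tr τ.1.1 2 := hA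
  have hB' : ∀ τ : NN H, lin τ.1.1 0 2 = a21 * tr τ.1.1 1 + a22 * tr τ.1.1 2 := hB
  set χ := lin g 2 2 with hχd
  have hχ := H.hχ
  rw [← hχd] at hχ
  have hχ0 : 0 < χ := by linarith
  have hχi : χ⁻¹ < 1 := inv_lt_one_of_one_lt₀ hχ
  have hne : χ⁻¹ - χ ≠ 0 := by
    have : χ⁻¹ - χ < 0 := by linarith
    exact this.ne
  -- a11 = 0
  have z11 : a11 = 0 := by
    have h : ∀ τ : NN H, a11 * tr τ.1.1 1 = 0 := by
      intro τ
      obtain ⟨c1, c2, c3, c4, c5⟩ := cj_vals H τ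
      have e1 := hA' (cj H τ)
      rw [c1, c2, c3, hA' τ] at e1
      have : a11 * tr τ.1.1 1 * (χ⁻¹ - χ) = 0 := by linear_combination -e1
      rcases mul_eq_zero.1 this with h | h
      · exact h
      · exact absurd h hne
    by_contra hne'
    have e1 : tr τ₁ 1 = 0 := (mul_eq_zero.1 (h t1)).resolve_left hne'
    have e2 : tr τ₂ 1 = 0 := (mul_eq_zero.1 (h t2)).resolve_left hne'
    apply L.hdet
    rw [e1, e2]; ring
  have z22 : a22 = 0 := by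
    have h : ∀ τ : NN H, a22 * tr τ.1.1 2 = 0 := by
      intro τ
      obtain ⟨c1, c2, c3, c4, c5⟩ := cj_vals H τ
      have e1 := hB' (cj H τ)
      rw [c1, c2, c4, hB' τ] at e1
      have : a22 * tr τ.1.1 2 * (χ⁻¹ - χ) = 0 := by linear_combination e1
      rcases mul_eq_zero.1 this with h | h
      · exact h
      · exact absurd h hne
    by_contra hne'
    have e1 : tr τ₁ 2 = 0 := (mul_eq_zero.1 (h t1)).resolve_left hne'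
    have e2 : tr τ₂ 2 = 0 := (mul_eq_zero.1 (h t2)).resolve_left hne'
    apply L.hdet
    rw [e1, e2]; ring
  -- commutativity
  have hcomm : ∀ σ τ : NN H, σ * τ = τ * σ := by
    intro σ τ
    obtain ⟨m, n, e1, e2⟩ := L.hlat _ (σ * τ).1.2 ((mem_NN H _).1 (σ * τ).2)
    have q1 := L.eq H (σ * τ).1.2 ((mem_NN H _).1 (σ * τ).2) e1 e2
    have hs := (mem_NN H _).1 σ.2
    have ht := (mem_NN H _).1 τ.2
    have f1 : tr (τ * σ).1.1 1 = tr (σ * τ).1.1 1 := by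
      show τ.1.1 (σ.1.1 0) 1 = σ.1.1 (τ.1.1 0) 1
      rw [n1 H τ.1.2 ht, n1 H σ.1.2 hs, n1 H σ.1.2 hs, n1 H τ.1.2 ht]; ring
    have f2 : tr (τ * σ).1.1 2 = tr (σ * τ).1.1 2 := by
      show τ.1.1 (σ.1.1 0) 2 = σ.1.1 (τ.1.1 0) 2
      rw [n2 H τ.1.2 ht, n2 H σ.1.2 hs, n2 H σ.1.2 hs, n2 H τ.1.2 ht]; ring
    have q2 := L.eq H (τ * σ).1.2 ((mem_NN H _).1 (τ * σ).2) (f1.trans e1) (f2.trans e2)
    apply Subtype.ext
    apply Subtype.ext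
    exact q1.trans q2.symm
  have h12 : a12 = a21 := by
    have e1 := congrArg (fun ρ : NN H => tr ρ.1.1 0) (hcomm t1 t2)
    have e2 : tr (τ₁ * τ₂) 0 = tr (τ₂ * τ₁) 0 := e1
    rw [mulT0 (H.hT _ L.h1) (H.hT _ L.h2), mulT0 (H.hT _ L.h2) (H.hT _ L.h1), H.h00 _ L.h1,
      H.h00 _ L.h2] at e2
    have b1 : lin τ₁ 0 1 = a11 * tr τ₁ 1 + a12 * tr τ₁ 2 := hA' t1
    have b2 : lin τ₂ 0 1 = a11 * tr τ₂ 1 + a12 * tr τ₂ 2 := hA' t2
    have b3 : lin τ₁ 0 2 = a21 * tr τ₁ 1 + a22 * tr τ₁ 2 := hB' t1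
    have b4 : lin τ₂ 0 2 = a21 * tr τ₂ 1 + a22 * tr τ₂ 2 := hB' t2
    rw [b1, b2, b3, b4, z11, z22] at e2
    have : (a12 - a21) * (tr τ₁ 1 * tr τ₂ 2 - tr τ₁ 2 * tr τ₂ 1) = 0 := by
      linear_combination -e2
    rcases mul_eq_zero.1 this with h | h
    · linarith
    · exact absurd h L.hdet
  refine ⟨a12, ?_⟩
  have hA2 : ∀ τ : NN H, lin τ.1.1 0 1 = a12 * tr τ.1.1 2 := by
    intro τ; rw [hA' τ, z11]; ring
  have hB2 : ∀ τ : NN H, lin τ.1.1 0 2 = a12 * tr τ.1.1 1 := by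
    intro τ; rw [hB' τ, z22, ← h12]; ring
  -- the third homomorphism
  let f : NN H →* Multiplicative ℝ :=
    { toFun := fun τ => Multiplicative.ofAdd (tr τ.1.1 0 - a12 * tr τ.1.1 1 * tr τ.1.1 2)
      map_one' := by
        show Multiplicative.ofAdd (tr 1 0 - a12 * tr 1 1 * tr 1 2) = 1
        simp [tr_one]
      map_mul' := by
        intro σ τ
        rw [← ofAdd_add]
        congr 1
        have hs := (mem_NN H _).1 σ.2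
        have e0 : tr (σ * τ).1.1 0 = tr τ.1.1 0 + lin σ.1.1 0 1 * tr τ.1.1 1 +
          lin σ.1.1 0 2 * tr τ.1.1 2 + tr σ.1.1 0 := by
          show tr (σ.1.1 * τ.1.1) 0 = _
          rw [mulT0 (H.hT _ σ.1.2) (H.hT _ τ.1.2), H.h00 _ σ.1.2, one_mul]
        have e1 : tr (σ * τ).1.1 1 = tr τ.1.1 1 + tr σ.1.1 1 := n1 H σ.1.2 hs _
        have e2 : tr (σ * τ).1.1 2 = tr τ.1.1 2 + tr σ.1.1 2 := n2 H σ.1.2 hs _
        rw [e0, e1, e2, hA2, hB2]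
        ring }
  obtain ⟨l1, l2, hl⟩ := L.addlin H f
  have hl' : ∀ τ : NN H, tr τ.1.1 0 - a12 * tr τ.1.1 1 * tr τ.1.1 2 =
    l1 * tr τ.1.1 1 + l2 * tr τ.1.1 2 := hl
  have hz : ∀ τ : NN H, l1 * tr τ.1.1 1 * (χ⁻¹ - 1) + l2 * tr τ.1.1 2 * (χ - 1) = 0 := by
    intro τ
    obtain ⟨c1, c2, c3, c4, c5⟩ := cj_vals H τ
    have e1 := hl' (cj H τ)
    rw [c1, c2, c5] at e1
    have e2 := hl' τ
    have e3 : χ⁻¹ * χ = 1 := inv_mul_cancel₀ hχ0.ne'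
    linear_combination e2 - e1 - a12 * tr τ.1.1 1 * tr τ.1.1 2 * e3
  have z1 : l1 = 0 ∧ l2 = 0 := by
    have b1 : l1 * tr τ₁ 1 * (χ⁻¹ - 1) + l2 * tr τ₁ 2 * (χ - 1) = 0 := hz t1
    have b2 : l1 * tr τ₂ 1 * (χ⁻¹ - 1) + l2 * tr τ₂ 2 * (χ - 1) = 0 := hz t2
    have u1 : l1 * (χ⁻¹ - 1) * (tr τ₁ 1 * tr τ₂ 2 - tr τ₁ 2 * tr τ₂ 1) = 0 := by
      linear_combination tr τ₂ 2 * b1 - tr τ₁ 2 * b2
    have u2 : l2 * (χ - 1) * (tr τ₁ 1 * tr τ₂ 2 - tr τ₁ 2 * tr τ₂ 1) = 0 := by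
      linear_combination -tr τ₂ 1 * b1 + tr τ₁ 1 * b2
    have v1 : χ⁻¹ - 1 ≠ 0 := by
      have : χ⁻¹ - 1 < 0 := by linarith
      exact this.ne
    have v2 : χ - 1 ≠ 0 := by
      have : 0 < χ - 1 := by linarith
      exact this.ne'
    constructor
    · rcases mul_eq_zero.1 u1 with h | h
      · exact (mul_eq_zero.1 h).resolve_right v1
      · exact absurd h L.hdet
    · rcases mul_eq_zero.1 u2 with h | h
      · exact (mul_eq_zero.1 h).resolve_right v2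
      · exact absurd h L.hdet
  intro τ
  refine ⟨hA2 τ, hB2 τ, ?_⟩
  have := hl' τ
  rw [z1.1, z1.2] at this
  linarith

theorem finInt (c B : ℝ) (hc : c ≠ 0) : {k : ℤ | |(k : ℝ) * c| ≤ B}.Finite := by
  apply (Set.finite_Icc (-⌈B / |c|⌉) ⌈B / |c|⌉).subset
  intro k hk
  have hc' : 0 < |c| := abs_pos.2 hc
  have h1 : |(k : ℝ)| ≤ B / |c| := by
    rw [le_div_iff₀ hc', ← abs_mul]
    exact hk
  have h2 := abs_le.1 (h1.trans (Int.le_ceil _))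
  constructor
  · exact_mod_cast h2.1
  · exact_mod_cast h2.2

theorem finLat (p1 p2 r1 r2 B : ℝ) (hdet : p1 * r2 - p2 * r1 ≠ 0) :
    {w : ℤ × ℤ | |(w.1 : ℝ) * p1 + w.2 * r1| ≤ B ∧ |(w.1 : ℝ) * p2 + w.2 * r2| ≤ B}.Finite := by
  apply ((finInt _ (B * |r2| + B * |r1|) hdet).prod (finInt _ (B * |p1| + B * |p2|) hdet)).subset
  rintro ⟨m, n⟩ ⟨h1, h2⟩
  simp only at h1 h2
  have hB : 0 ≤ B := (abs_nonneg _).trans h1
  constructor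
  · show |(m : ℝ) * (p1 * r2 - p2 * r1)| ≤ _
    have e1 : (m : ℝ) * (p1 * r2 - p2 * r1) = (m * p1 + n * r1) * r2 - (m * p2 + n * r2) * r1 := by
      ring
    rw [e1]
    calc _ ≤ |(m * p1 + n * r1) * r2| + |(m * p2 + n * r2) * r1| := abs_sub _ _
      _ ≤ _ := by
        rw [abs_mul, abs_mul]
        gcongr
  · show |(n : ℝ) * (p1 * r2 - p2 * r1)| ≤ _
    have e1 : (n : ℝ) * (p1 * r2 - p2 * r1) = (m * p2 + n * r2) * p1 - (m * p1 + n * r1) * p2 := by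
      ring
    rw [e1]
    calc _ ≤ |(m * p2 + n * r2) * p1| + |(m * p1 + n * r1) * p2| := abs_sub _ _
      _ ≤ _ := by
        rw [abs_mul, abs_mul]
        gcongr

theorem bddOn (f : E → ℝ) (hf : Continuous f) (C : Set E) (hC : IsCompact C) :
    ∃ B : ℝ, 0 ≤ B ∧ ∀ p ∈ C, |f p| ≤ B := by
  obtain ⟨B, hB⟩ := hC.exists_bound_of_continuousOn hf.continuousOn
  exact ⟨max B 0, le_max_right _ _, fun p hp => (hB p hp).trans (le_max_left _ _)⟩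

/-- Finiteness for the subgroup generated by `g` and the elements with `lin 2 2 = 1`. -/
theorem finA (L : Lat D τ₁ τ₂) (H : Dat D g) (C C' : Set E) (hC : IsCompact C)
    (hC' : IsCompact C') :
    {δ : Aff3 | δ ∈ D.Γ ∧ (∃ k : ℤ, lin δ 2 2 = lin g 2 2 ^ k) ∧
      (δ '' C ∩ C').Nonempty}.Finite := by
  obtain ⟨κ, hκ⟩ := exists_kappa L H
  let X : E → ℝ := fun p => p 0 - κ * p 1 * p 2
  have hXc : Continuous X := by fun_prop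
  have hXg : ∀ p, X (g p) = X p + tr g 0 := by
    intro p
    simp only [X]
    rw [H.g0, H.g1, H.g2]
    have e3 : (lin g 2 2)⁻¹ * lin g 2 2 = 1 := inv_mul_cancel₀ (H.pos H.hg).ne'
    linear_combination (-κ * p 1 * p 2) * e3
  have hXN : ∀ τ : NN H, ∀ p, X (τ.1.1 p) = X p := by
    intro τ p
    have hs := (mem_NN H _).1 τ.2
    obtain ⟨k1, k2, k3⟩ := hκ τ
    simp only [X]
    rw [H.a0 τ.1.2, n1 H τ.1.2 hs, n2 H τ.1.2 hs, k1, k2, k3]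
    ring
  obtain ⟨B, hB0, hB⟩ := bddOn X hXc C hC
  obtain ⟨B', hB0', hB'⟩ := bddOn X hXc C' hC'
  obtain ⟨B1, hB10, hB1⟩ := bddOn (fun p => p 1) (continuous_apply 1) C hC
  obtain ⟨B2, hB20, hB2⟩ := bddOn (fun p => p 2) (continuous_apply 2) C hC
  obtain ⟨B1', hB10', hB1'⟩ := bddOn (fun p => p 1) (continuous_apply 1) C' hC'
  obtain ⟨B2', hB20', hB2'⟩ := bddOn (fun p => p 2) (continuous_apply 2) C' hC'
  have hfin := (finInt (tr g 0) (B + B') H.gt0).biUnion (t := fun k : ℤ =>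
    (fun w : ℤ × ℤ => τ₁ ^ w.1 * τ₂ ^ w.2 * g ^ k) ''
      {w : ℤ × ℤ | |(w.1 : ℝ) * tr τ₁ 1 + w.2 * tr τ₂ 1| ≤
        (B1' + (lin g 2 2)⁻¹ ^ k * B1) + (B2' + (lin g 2 2) ^ k * B2) ∧
        |(w.1 : ℝ) * tr τ₁ 2 + w.2 * tr τ₂ 2| ≤
        (B1' + (lin g 2 2)⁻¹ ^ k * B1) + (B2' + (lin g 2 2) ^ k * B2)})
    (fun k _ => (finLat _ _ _ _ _ L.hdet).image _)
  apply hfin.subset
  rintro δ ⟨hδ, ⟨k, hk⟩, ⟨q, ⟨p, hp, hpq⟩, hq⟩⟩
  have hχ0 := H.pos H.hg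
  have hτm : δ * g ^ (-k) ∈ D.Γ := mul_mem hδ (zpow_mem H.hg _)
  have hτl : lin (δ * g ^ (-k)) 2 2 = 1 := by
    rw [lin22_mul H hδ (zpow_mem H.hg _), lin22_zpow H H.hg, hk, ← zpow_add₀ hχ0.ne',
      add_neg_cancel, zpow_zero]
  set τ : NN H := ⟨⟨δ * g ^ (-k), hτm⟩, (mem_NN H _).2 hτl⟩ with hτ
  have hδτ : δ = τ.1.1 * g ^ k := by
    simp [hτ]
  have hact : τ.1.1 ((g ^ k) p) = q := by
    rw [← hpq, hδτ]; rfl
  have hX : X q = X p + k * tr g 0 := by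
    rw [← hact, hXN, iter_add g X _ hXg]
  have hk1 : |(k : ℝ) * tr g 0| ≤ B + B' := by
    have e1 : (k : ℝ) * tr g 0 = X q - X p := by rw [hX]; ring
    rw [e1]
    calc _ ≤ |X q| + |X p| := abs_sub _ _
      _ ≤ B + B' := by linarith [hB p hp, hB' q hq]
  obtain ⟨m, n, e1, e2⟩ := L.hlat _ hτm hτl
  have hτe := L.eq H hτm hτl e1 e2
  refine mem_biUnion hk1 ⟨(m, n), ⟨?_, ?_⟩, ?_⟩
  · simp only
    rw [← e1]
    have f1 : tr (δ * g ^ (-k)) 1 = q 1 - (lin g 2 2)⁻¹ ^ k * p 1 := by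
      rw [← hact, n1 H τ.1.2 hτl, H.gk1]; ring
    rw [f1]
    have p1 : 0 < (lin g 2 2)⁻¹ ^ k := zpow_pos (inv_pos.2 hχ0) k
    have p2 : 0 < (lin g 2 2) ^ k := zpow_pos hχ0 k
    calc _ ≤ |q 1| + |(lin g 2 2)⁻¹ ^ k * p 1| := abs_sub _ _
      _ ≤ B1' + (lin g 2 2)⁻¹ ^ k * B1 := by
          rw [abs_mul, abs_of_pos p1]
          exact add_le_add (hB1' q hq) (mul_le_mul_of_nonneg_left (hB1 p hp) p1.le)
      _ ≤ _ := by
          have := mul_nonneg p2.le hB20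
          linarith
  · simp only
    rw [← e2]
    have f1 : tr (δ * g ^ (-k)) 2 = q 2 - (lin g 2 2) ^ k * p 2 := by
      rw [← hact, n2 H τ.1.2 hτl, H.gk2]; ring
    rw [f1]
    have p1 : 0 < (lin g 2 2)⁻¹ ^ k := zpow_pos (inv_pos.2 hχ0) k
    have p2 : 0 < (lin g 2 2) ^ k := zpow_pos hχ0 k
    calc _ ≤ |q 2| + |(lin g 2 2) ^ k * p 2| := abs_sub _ _
      _ ≤ B2' + (lin g 2 2) ^ k * B2 := by
          rw [abs_mul, abs_of_pos p2]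
          exact add_le_add (hB2' q hq) (mul_le_mul_of_nonneg_left (hB2 p hp) p2.le)
      _ ≤ _ := by
          have := mul_nonneg p1.le hB10
          linarith
  · simp only
    rw [← hτe]
    simp

/-- The values of the character `lin 2 2` in a bounded interval form a finite set. -/
theorem finV (L : Lat D τ₁ τ₂) (H : Dat D g) :
    {v : ℝ | 1 ≤ v ∧ v < lin g 2 2 ∧ ∃ γ ∈ D.Γ, lin γ 2 2 = v}.Finite := by
  apply Set.Finite.of_finite_image (f := fun v : ℝ => v + v⁻¹)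
  · apply ((Set.finite_Icc (0 : ℤ) ⌈lin g 2 2 + 1⌉).image (fun n : ℤ => (n : ℝ))).subset
    rintro _ ⟨v, ⟨hv1, hv2, γ, hγ, rfl⟩, rfl⟩
    set v := lin γ 2 2 with hv
    have hv0 : 0 < v := by linarith
    have conj : ∀ τ ∈ D.Γ, lin τ 2 2 = 1 → lin (γ * τ * γ⁻¹) 2 2 = 1 ∧
        tr (γ * τ * γ⁻¹) 1 = v⁻¹ * tr τ 1 ∧ tr (γ * τ * γ⁻¹) 2 = v * tr τ 2 := by
      intro τ hτ lτ
      refine ⟨?_, ?_, ?_⟩
      · rw [lin22_mul H (mul_mem hγ hτ) (inv_mem hγ), lin22_mul H hγ hτ, lin22_inv H hγ, lτ,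
          mul_one, ← hv]
        exact mul_inv_cancel₀ hv0.ne'
      · show γ (τ (γ⁻¹ 0)) 1 = _
        have e1 : γ (γ⁻¹ 0) 1 = 0 := by
          rw [← mul_app, mul_inv_cancel]; rfl
        rw [H.a1 hγ] at e1
        rw [H.a1 hγ, n1 H hτ lτ, ← hv]
        rw [← hv] at e1
        linear_combination e1
      · show γ (τ (γ⁻¹ 0)) 2 = _
        have e1 : γ (γ⁻¹ 0) 2 = 0 := by
          rw [← mul_app, mul_inv_cancel]; rfl
        rw [H.a2 hγ] at e1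
        rw [H.a2 hγ, n2 H hτ lτ, ← hv]
        rw [← hv] at e1
        linear_combination e1
    obtain ⟨c1, c2, c3⟩ := conj τ₁ L.h1 L.l1
    obtain ⟨d1, d2, d3⟩ := conj τ₂ L.h2 L.l2
    obtain ⟨a, b, ea, eb⟩ := L.hlat _ (mul_mem (mul_mem hγ L.h1) (inv_mem hγ)) c1
    obtain ⟨c, d, ec, ed⟩ := L.hlat _ (mul_mem (mul_mem hγ L.h2) (inv_mem hγ)) d1
    rw [c2] at ea
    rw [c3] at eb
    rw [d2] at ec
    rw [d3] at ed
    have key : v + v⁻¹ = ((a + d : ℤ) : ℝ) := by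
      have h1 : (v + v⁻¹ - (a + d)) * (tr τ₁ 1 * tr τ₂ 2 - tr τ₁ 2 * tr τ₂ 1) = 0 := by
        linear_combination tr τ₂ 2 * ea - tr τ₂ 1 * eb + tr τ₁ 1 * ed - tr τ₁ 2 * ec
      rcases mul_eq_zero.1 h1 with h | h
      · push_cast; linarith
      · exact absurd h L.hdet
    refine ⟨a + d, ⟨?_, ?_⟩, key.symm⟩
    · have : (0 : ℝ) ≤ ((a + d : ℤ) : ℝ) := by
        rw [← key]; positivity
      exact_mod_cast this
    · have h1 : v⁻¹ ≤ 1 := inv_le_one_of_one_le₀ hv1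
      have h2 : ((a + d : ℤ) : ℝ) ≤ ⌈lin g 2 2 + 1⌉ := by
        rw [← key]
        exact le_trans (by linarith) (Int.le_ceil _)
      exact_mod_cast h2
  · rintro v ⟨hv1, -⟩ w ⟨hw1, -⟩ hvw
    simp only at hvw
    have hv0 : 0 < v := by linarith
    have hw0 : 0 < w := by linarith
    have e1 : (v - w) * (v * w - 1) = 0 := by
      field_simp at hvw
      nlinarith
    rcases mul_eq_zero.1 e1 with h | h
    · linarith
    · nlinarith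

theorem PD (L : Lat D τ₁ τ₂) (H : Dat D g) (C : Set E) (hC : IsCompact C) :
    {γ : Aff3 | γ ∈ D.Γ ∧ ((γ '' C) ∩ C).Nonempty}.Finite := by
  classical
  set V := {v : ℝ | 1 ≤ v ∧ v < lin g 2 2 ∧ ∃ γ ∈ D.Γ, lin γ 2 2 = v} with hV
  have hr : ∀ v : ℝ, ∃ r : Aff3, v ∈ V → r ∈ D.Γ ∧ lin r 2 2 = v := by
    intro v
    by_cases hv : v ∈ V
    · obtain ⟨-, -, r, hr1, hr2⟩ := hv
      exact ⟨r, fun _ => ⟨hr1, hr2⟩⟩
    · exact ⟨1, fun h => absurd h hv⟩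
  choose r hr using hr
  have hcont : ∀ γ : Aff3, Continuous γ := fun γ =>
    AffineMap.continuous_of_finiteDimensional (γ : E →ᵃ[ℝ] E)
  have hfin := (finV L H).biUnion (t := fun v => (fun δ => r v * δ) ''
    {δ : Aff3 | δ ∈ D.Γ ∧ (∃ k : ℤ, lin δ 2 2 = lin g 2 2 ^ k) ∧
      (δ '' C ∩ (⇑((r v)⁻¹ : Aff3) '' C)).Nonempty})
    (fun v _ => (finA L H C _ hC (hC.image (hcont _))).image _)
  apply hfin.subset
  rintro γ ⟨hγ, q, ⟨p, hp, hpq⟩, hq⟩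
  have hχ0 := H.pos H.hg
  obtain ⟨k, hk1, hk2⟩ := exists_mem_Ico_zpow (H.pos hγ) H.hχ
  have hkp : 0 < lin g 2 2 ^ k := zpow_pos hχ0 k
  set v := lin γ 2 2 * (lin g 2 2 ^ k)⁻¹ with hv
  have hvV : v ∈ V := by
    refine ⟨?_, ?_, γ * g ^ (-k), mul_mem hγ (zpow_mem H.hg _), ?_⟩
    · rw [hv, ← div_eq_mul_inv, le_div_iff₀ hkp]
      linarith
    · rw [hv, ← div_eq_mul_inv, div_lt_iff₀ hkp]
      rw [zpow_add_one₀ hχ0.ne'] at hk2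
      linarith
    · rw [lin22_mul H hγ (zpow_mem H.hg _), lin22_zpow H H.hg, zpow_neg]
  obtain ⟨hr1, hr2⟩ := hr v hvV
  refine mem_biUnion hvV ⟨(r v)⁻¹ * γ, ⟨mul_mem (inv_mem hr1) hγ, ⟨k, ?_⟩, ?_⟩, ?_⟩
  · rw [lin22_mul H (inv_mem hr1) hγ, lin22_inv H hr1, hr2, hv]
    have := (H.pos hγ).ne'
    field_simp
  · exact ⟨(r v)⁻¹ q, ⟨p, hp, by rw [mul_app, hpq]⟩, ⟨q, hq, rfl⟩⟩
  · simp

theorem thm_T2lat (hF2 : S_F2) (hPD : S_PDall) : S_T2lat := by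
  intro D g hT h00 hg hχ g01 g02 g12 gt1 gt2 kinv gt0 h12 hlat
  have H : Dat D g := ⟨hT, h00, hg, hχ, g01, g02, gt1, gt2, kinv, gt0, h12⟩
  obtain ⟨τ₁, h1, τ₂, h2, l1, l2, hdet, hl⟩ := hlat
  have L : Lat D τ₁ τ₂ := ⟨h1, h2, l1, l2, hdet, hl, fun ν hν lν t1 t2 =>
    no_vert hF2 H h1 h2 l1 l2 hdet hl hν lν t1 t2⟩
  exact hPD D fun C hC => PD L H C hC

end Pool.Agent.Helper82.K3.T2lat
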