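import Pool.Agent.Helper82.K3.triApi

/-!
# Triangular case, `lin 1 1 = 1`
-/

set_option autoImplicit false

open Set Filter Topology

namespace Pool.Agent.Helper82.K3.b2iv

open Pool.Agent.Helper77.K3 Pool.Agent.Helper33.K3 Pool.Agent.Helper82.K3.triApi

theorem mul_app (γ δ : Aff3) (x : E) : (γ * δ) x = γ (δ x) := rfl

/-- The coordinate swap. -/
theorem exists_swap : ∃ φ : Aff3, ∀ i j, lin φ i j = (!![0, 1, 0; 1, 0, 0; 0, 0, 1] : M3) i j := by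
  have hdet : (!![0, 1, 0; 1, 0, 0; 0, 0, 1] : M3).det ≠ 0 := by
    rw [Matrix.det_fin_three]
    simp
  obtain ⟨φ, h1, -, -⟩ := exists_aff !![0, 1, 0; 1, 0, 0; 0, 0, 1] 0 hdet
  refine ⟨φ, fun i j => ?_⟩
  rw [← h1]
  rfl

/-- If the direction `e 1` is invariant, swap the first two coordinates and use T2. -/
theorem swapT2 (hT2 : S_T2) (hconj : S_conj) (D : KData) (hT : D.Tri)
    (h1 : ∀ γ ∈ D.Γ, lin γ 1 1 = 1) (h01 : ∀ γ ∈ D.Γ, lin γ 0 1 = 0)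
    (hg : ∃ g ∈ D.Γ, lin g 2 2 ≠ 1) : D.Ω = univ := by
  obtain ⟨φ, hφ⟩ := exists_swap
  obtain ⟨D', hΩ, hmem⟩ := hconj D φ
  have key : ∀ γ' ∈ D'.Γ, ∃ γ ∈ D.Γ, lin γ' 0 0 = lin γ 1 1 ∧ lin γ' 0 1 = lin γ 1 0 ∧
      lin γ' 0 2 = lin γ 1 2 ∧ lin γ' 1 0 = lin γ 0 1 ∧ lin γ' 1 1 = lin γ 0 0 ∧
      lin γ' 1 2 = lin γ 0 2 ∧ lin γ' 2 0 = lin γ 2 1 ∧ lin γ' 2 1 = lin γ 2 0 ∧
      lin γ' 2 2 = lin γ 2 2 := by
    intro γ' hγ'
    have h := (hmem γ').1 hγ'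
    set γ := φ⁻¹ * γ' * φ with hγ
    have he : φ * γ = γ' * φ := by rw [hγ]; group
    have hL : ∀ i j, lin (φ * γ) i j = lin (γ' * φ) i j := fun i j => by rw [he]
    refine ⟨γ, h, ?_⟩
    have f00 := hL 0 0
    have f01 := hL 0 1
    have f02 := hL 0 2
    have f10 := hL 1 0
    have f11 := hL 1 1
    have f12 := hL 1 2
    have f20 := hL 2 0
    have f21 := hL 2 1
    have f22 := hL 2 2
    simp only [lin_mul, hφ] at f00 f01 f02 f10 f11 f12 f20 f21 f22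
    simp at f00 f01 f02 f10 f11 f12 f20 f21 f22
    exact ⟨f01.symm, f00.symm, f02.symm, f11.symm, f10.symm, f12.symm, f21.symm, f20.symm,
      f22.symm⟩
  have hΩ' : D'.Ω = univ := by
    apply hT2 D'
    · intro γ' hγ'
      obtain ⟨γ, hγ, a00, a01, a02, a10, a11, a12, a20, a21, a22⟩ := key γ' hγ'
      obtain ⟨b1, b2, b3, b4, b5, b6, b7⟩ := hT γ hγ
      refine ⟨by rw [a10, h01 γ hγ], by rw [a20, b3], by rw [a21, b2], by rw [a00]; exact b5,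
        by rw [a11]; exact b4, by rw [a22]; exact b6, ?_⟩
      rw [a00, a11, a22, ← b7]; ring
    · intro γ' hγ'
      obtain ⟨γ, hγ, a00, -⟩ := key γ' hγ'
      rw [a00, h1 γ hγ]
    · obtain ⟨g, hg1, hg2⟩ := hg
      have hm : φ * g * φ⁻¹ ∈ D'.Γ := by
        rw [hmem]
        have : φ⁻¹ * (φ * g * φ⁻¹) * φ = g := by group
        rw [this]; exact hg1
      refine ⟨_, hm, ?_⟩
      have he : φ * g = (φ * g * φ⁻¹) * φ := by group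
      have f22 : lin (φ * g) 2 2 = lin ((φ * g * φ⁻¹) * φ) 2 2 := by rw [← he]
      simp only [lin_mul _ φ, lin_mul φ g, hφ] at f22
      simp at f22
      rw [← f22]
      exact hg2
  rw [hΩ] at hΩ'
  rw [eq_univ_iff_forall] at hΩ' ⊢
  intro x
  obtain ⟨y, hy, hxy⟩ := hΩ' (φ x)
  rwa [φ.injective hxy] at hy

/-- The translation part of the commutator with a translation. -/
theorem comm_tr {h κ : Aff3} (hκ : mat κ = 1) (i : Fin 3) :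
    mat (h * κ * h⁻¹ * κ⁻¹) = 1 ∧ tr (h * κ * h⁻¹ * κ⁻¹) i =
      lin h i 0 * tr κ 0 + lin h i 1 * tr κ 1 + lin h i 2 * tr κ 2 - tr κ i := by
  have hl : ∀ i j, lin κ i j = if i = j then 1 else 0 := by
    intro i j
    have := congrFun (congrFun hκ i) j
    rw [Matrix.one_apply] at this
    exact this
  have ha : ∀ x : E, ∀ i, κ x i = x i + tr κ i := by
    intro x i
    rw [apply_coord, hl, hl, hl]
    fin_cases i <;> simp
  have hinv : ∀ i, κ⁻¹ 0 i = -tr κ i := by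
    intro i
    have : (κ * κ⁻¹) 0 i = κ⁻¹ 0 i + tr κ i := by rw [mul_app, ha]
    rw [mul_inv_cancel] at this
    have e1 : (1 : Aff3) 0 i = 0 := rfl
    rw [e1] at this
    linarith
  constructor
  · rw [mat_mul, mat_mul, mat_mul, mat_inv κ, hκ, inv_one, mul_one, mul_one, ← mat_mul,
      mul_inv_cancel, mat_one]
  · show h (κ (h⁻¹ (κ⁻¹ 0))) i = _
    have e1 : h (h⁻¹ (κ⁻¹ 0)) i = κ⁻¹ 0 i := by
      rw [← mul_app, mul_inv_cancel]; rfl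
    rw [apply_coord] at e1
    rw [apply_coord, ha, ha, ha]
    rw [hinv] at e1
    linear_combination e1

theorem poly4 {χ A B C E' : ℝ} (h0 : 0 < χ) (h1 : χ ≠ 1)
    (f0 : B + A + C + E' = 0) (f1 : B * χ ^ 3 + A * χ ^ 2 + C * χ + E' = 0)
    (f2 : B * χ ^ 6 + A * χ ^ 4 + C * χ ^ 2 + E' = 0)
    (f3 : B * χ ^ 9 + A * χ ^ 6 + C * χ ^ 3 + E' = 0) : B = 0 ∧ A = 0 := by
  have n1 : χ - 1 ≠ 0 := sub_ne_zero.2 h1
  have n0 : χ ≠ 0 := h0.ne'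
  have n2 : χ ^ 2 - 1 ≠ 0 := by
    have : χ ^ 2 - 1 = (χ - 1) * (χ + 1) := by ring
    rw [this]
    exact mul_ne_zero n1 (by linarith)
  have d01 : B * (χ ^ 2 + χ + 1) + A * (χ + 1) + C = 0 := by
    apply mul_left_cancel₀ n1
    linear_combination f1 - f0
  have d12 : B * (χ ^ 4 + χ ^ 3 + χ ^ 2) + A * (χ ^ 2 + χ) + C = 0 := by
    apply mul_left_cancel₀ (mul_ne_zero n0 n1)
    linear_combination f2 - f1
  have d23 : B * (χ ^ 6 + χ ^ 5 + χ ^ 4) + A * (χ ^ 3 + χ ^ 2) + C = 0 := by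
    apply mul_left_cancel₀ (mul_ne_zero (pow_ne_zero 2 n0) n1)
    linear_combination f3 - f2
  have d012 : B * (χ ^ 2 + χ + 1) + A = 0 := by
    apply mul_left_cancel₀ n2
    linear_combination d12 - d01
  have d123 : B * (χ * (χ ^ 2 + χ + 1)) + A = 0 := by
    apply mul_left_cancel₀ (mul_ne_zero n0 n2)
    linear_combination d23 - d12
  have hB : B = 0 := by
    have n3 : (χ - 1) * (χ ^ 2 + χ + 1) ≠ 0 := mul_ne_zero n1 (by positivity)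
    apply mul_left_cancel₀ n3
    linear_combination d123 - d012
  refine ⟨hB, ?_⟩
  rw [hB] at d012
  linarith

/-- The normalised situation. -/
structure Dat (D : KData) (g : Aff3) : Prop where
  hT : D.Tri
  h0 : ∀ γ ∈ D.Γ, lin γ 0 0 = (lin γ 2 2)⁻¹
  h1 : ∀ γ ∈ D.Γ, lin γ 1 1 = 1
  hg : g ∈ D.Γ
  hχ : lin g 2 2 ≠ 1
  g01 : lin g 0 1 = 0
  g02 : lin g 0 2 = 0
  g12 : lin g 1 2 = 0
  gt0 : tr g 0 = 0
  gt2 : tr g 2 = 0

variable {D : KData} {g : Aff3}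

theorem Dat.pos (H : Dat D g) {γ : Aff3} (h : γ ∈ D.Γ) : 0 < lin γ 2 2 := (H.hT γ h).2.2.2.2.2.1

theorem inv_vals (H : Dat D g) : lin g⁻¹ 2 2 = (lin g 2 2)⁻¹ ∧ lin g⁻¹ 0 0 = lin g 2 2 ∧
    lin g⁻¹ 1 1 = 1 ∧ lin g⁻¹ 0 1 = 0 ∧ lin g⁻¹ 0 2 = 0 ∧ lin g⁻¹ 1 2 = 0 ∧
    tr g⁻¹ 0 = 0 ∧ tr g⁻¹ 1 = -tr g 1 ∧ tr g⁻¹ 2 = 0 := by
  have hi : g⁻¹ ∈ D.Γ := inv_mem H.hg
  have e1 : g * g⁻¹ = 1 := mul_inv_cancel g
  have hg' := H.hT _ H.hg
  have hi' := H.hT _ hi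
  have p := H.pos H.hg
  have q22 := mul22 hg' hi'
  have q01 := mul01 hg' hi'
  have q02 := mul02 hg' hi'
  have q12 := mul12 hg' hi'
  have q0 := mulT0 hg' hi'
  have q1 := mulT1 hg' hi'
  have q2 := mulT2 hg' hi'
  have k0 : lin g 0 0 = (lin g 2 2)⁻¹ := H.h0 _ H.hg
  have k1 : lin g 1 1 = 1 := H.h1 _ H.hg
  rw [e1] at q22 q01 q02 q12 q0 q1 q2
  simp only [tr_one, lin_one, k0, k1, H.g01, H.g02, H.g12, H.gt0, H.gt2] at q22 q01 q02 q12 q0 q1 q2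
  have hinv : (lin g 2 2)⁻¹ ≠ 0 := inv_ne_zero p.ne'
  have a22 : lin g⁻¹ 2 2 = (lin g 2 2)⁻¹ := by
    apply eq_inv_of_mul_eq_one_right
    simpa using q22.symm
  have a01 : lin g⁻¹ 0 1 = 0 := by
    apply mul_left_cancel₀ hinv
    simpa using q01.symm
  have a12 : lin g⁻¹ 1 2 = 0 := by simpa using q12.symm
  have a02 : lin g⁻¹ 0 2 = 0 := by
    apply mul_left_cancel₀ hinv
    simpa using q02.symm
  refine ⟨a22, ?_, H.h1 _ hi, a01, a02, a12, ?_, ?_, ?_⟩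
  · rw [H.h0 _ hi, a22, inv_inv]
  · apply mul_left_cancel₀ hinv
    simpa using q0.symm
  · linarith
  · apply mul_left_cancel₀ p.ne'
    simpa using q2.symm

/-- Conjugation by `g`. -/
theorem conj_vals (H : Dat D g) {τ : Aff3} (hτ : τ ∈ D.Γ) (l : lin τ 2 2 = 1) :
    g * τ * g⁻¹ ∈ D.Γ ∧ lin (g * τ * g⁻¹) 2 2 = 1 ∧
    lin (g * τ * g⁻¹) 0 1 = (lin g 2 2)⁻¹ * lin τ 0 1 ∧
    lin (g * τ * g⁻¹) 0 2 = (lin g 2 2)⁻¹ ^ 2 * lin τ 0 2 ∧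
    lin (g * τ * g⁻¹) 1 2 = (lin g 2 2)⁻¹ * lin τ 1 2 ∧
    tr (g * τ * g⁻¹) 1 = tr τ 1 ∧ tr (g * τ * g⁻¹) 2 = lin g 2 2 * tr τ 2 := by
  have hi : g⁻¹ ∈ D.Γ := inv_mem H.hg
  have hg' := H.hT _ H.hg
  have hi' := H.hT _ hi
  have ht' := H.hT _ hτ
  have hgt := mul_tri hg' ht'
  have p := H.pos H.hg
  obtain ⟨a22, a00, a11, a01, a02, a12, a0, a1, a2⟩ := inv_vals H
  have k0 : lin g 0 0 = (lin g 2 2)⁻¹ := H.h0 _ H.hg
  have k1 : lin g 1 1 = 1 := H.h1 _ H.hg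
  have t0 : lin τ 0 0 = 1 := by rw [H.h0 _ hτ, l, inv_one]
  have t1 : lin τ 1 1 = 1 := H.h1 _ hτ
  refine ⟨mul_mem (mul_mem H.hg hτ) hi, ?_, ?_, ?_, ?_, ?_, ?_⟩
  · rw [mul22 hgt hi', mul22 hg' ht', l, a22, mul_one, mul_inv_cancel₀ p.ne']
  · rw [mul01 hgt hi', mul01 hg' ht', a01, a11, k0, H.g01, t1]; ring
  · rw [mul02 hgt hi', mul02 hg' ht', mul01 hg' ht', a02, a12, a22, k0, H.g01, H.g02]; ring
  · rw [mul12 hgt hi', mul12 hg' ht', mul11 hg' ht', a12, a22, k1, H.g12]; ring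
  · rw [mulT1 hgt hi', mulT1 hg' ht', mul11 hg' ht', mul12 hg' ht', a1, a2, k1, t1, H.g12]; ring
  · rw [mulT2 hgt hi', mulT2 hg' ht', a2, H.gt2]; ring

theorem core (hC : S_comm) (hY : S_ys) (hD : S_densN) (hX : S_noX) (hT2 : S_T2) (hF2 : S_F2)
    (hconj : S_conj) (H : Dat D g) : D.Ω = univ := by
  have hχ0 := H.pos H.hg
  set χ := lin g 2 2 with hχd
  have hexg : ∃ g ∈ D.Γ, lin g 2 2 ≠ 1 := ⟨g, H.hg, H.hχ⟩
  have hprp : D.Prp (-1) := by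
    refine ⟨H.hT, fun γ hγ => ?_⟩
    rw [H.h0 γ hγ, Real.rpow_neg_one]
  have hg00 : lin g 0 0 ≠ 1 := by
    rw [H.h0 _ H.hg]
    intro h
    exact H.hχ (inv_eq_one.1 h)
  by_cases hinv : ∀ γ ∈ D.Γ, lin γ 0 1 = 0
  · exact swapT2 hT2 hconj D H.hT H.h1 hinv hexg
  -- translations in the plane of the first two coordinates are trivial
  have htriv : ∀ κ ∈ D.Γ, mat κ = 1 → tr κ 2 = 0 → κ = 1 := by
    intro κ hκ mκ t2
    have hall : ∀ h ∈ D.Γ, lin h 0 0 * tr κ 0 + lin h 0 1 * tr κ 1 - tr κ 0 = 0 := by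
      intro h hh
      have hmem : h * κ * h⁻¹ * κ⁻¹ ∈ D.Γ :=
        mul_mem (mul_mem (mul_mem hh hκ) (inv_mem hh)) (inv_mem hκ)
      have h1 : h * κ * h⁻¹ * κ⁻¹ = 1 := by
        apply hX D g _ H.hT H.hg hg00 hmem (comm_tr mκ 0).1
        · rw [(comm_tr mκ 1).2, (H.hT _ hh).1, H.h1 _ hh, t2]; ring
        · rw [(comm_tr mκ 2).2, (H.hT _ hh).2.1, (H.hT _ hh).2.2.1, t2]; ring
      have h2 := (comm_tr (h := h) mκ 0).2
      rw [h1, tr_one, t2] at h2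
      linarith
    have b1 : tr κ 0 = 0 := by
      have := hall g H.hg
      rw [H.g01] at this
      have h3 : (lin g 0 0 - 1) * tr κ 0 = 0 := by linarith
      exact (mul_eq_zero.1 h3).resolve_left (sub_ne_zero.2 hg00)
    have b2 : tr κ 1 = 0 := by
      by_contra hne
      apply hinv
      intro γ hγ
      have := hall γ hγ
      rw [b1] at this
      have h3 : lin γ 0 1 * tr κ 1 = 0 := by linarith
      exact (mul_eq_zero.1 h3).resolve_right hne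
    exact hX D g κ H.hT H.hg hg00 hκ mκ b2 t2
  -- the unipotent part is abelian
  have hab : ∀ σ ∈ D.Γ, ∀ τ ∈ D.Γ, lin σ 2 2 = 1 → lin τ 2 2 = 1 → σ * τ = τ * σ := by
    intro σ hσ τ hτ lσ lτ
    obtain ⟨m1, t1⟩ := hC D (-1) hprp (by norm_num) hexg σ hσ τ hτ lσ lτ
    have := htriv _ (mul_mem (mul_mem (mul_mem hσ hτ) (inv_mem hσ)) (inv_mem hτ)) m1 t1
    rw [mul_inv_eq_one, mul_inv_eq_iff_eq_mul] at this
    exact this
  have r1 : ∀ σ ∈ D.Γ, ∀ τ ∈ D.Γ, lin σ 2 2 = 1 → lin τ 2 2 = 1 →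
      lin σ 1 2 * tr τ 2 = lin τ 1 2 * tr σ 2 := by
    intro σ hσ τ hτ lσ lτ
    have h1 := congrArg (fun γ : Aff3 => tr γ 1) (hab σ hσ τ hτ lσ lτ)
    rw [mulT1 (H.hT _ hσ) (H.hT _ hτ), mulT1 (H.hT _ hτ) (H.hT _ hσ), H.h1 _ hσ, H.h1 _ hτ] at h1
    linarith
  have r0 : ∀ σ ∈ D.Γ, ∀ τ ∈ D.Γ, lin σ 2 2 = 1 → lin τ 2 2 = 1 →
      lin σ 0 1 * tr τ 1 + lin σ 0 2 * tr τ 2 = lin τ 0 1 * tr σ 1 + lin τ 0 2 * tr σ 2 := by
    intro σ hσ τ hτ lσ lτ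
    have h1 := congrArg (fun γ : Aff3 => tr γ 0) (hab σ hσ τ hτ lσ lτ)
    rw [mulT0 (H.hT _ hσ) (H.hT _ hτ), mulT0 (H.hT _ hτ) (H.hT _ hσ), H.h0 _ hσ, H.h0 _ hτ, lσ,
      lτ, inv_one] at h1
    linarith
  obtain ⟨τ₀, hτ₀, lτ₀, c0, -⟩ := hD D H.hT hexg 1 2 (by norm_num)
  have l0 : lin τ₀ 2 2 = 1 := lτ₀ 2
  have c0' : tr τ₀ 2 ≠ 0 := by linarith
  have hχi : χ⁻¹ * χ = 1 := inv_mul_cancel₀ hχ0.ne'
  have hne : χ⁻¹ - χ ≠ 0 := by
    intro h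
    have h2 : χ ^ 2 = 1 := by
      have : χ⁻¹ = χ := by linarith
      rw [this] at hχi
      rw [sq]; exact hχi
    have h3 : (χ - 1) * (χ + 1) = 0 := by ring_nf; linarith
    rcases mul_eq_zero.1 h3 with h4 | h4
    · exact H.hχ (by linarith)
    · linarith
  -- lin 1 2 = 0
  have e12 : ∀ τ ∈ D.Γ, lin τ 2 2 = 1 → lin τ 1 2 = 0 := by
    have h1 : ∀ τ ∈ D.Γ, lin τ 2 2 = 1 → lin τ 1 2 * tr τ 2 = 0 := by
      intro τ hτ lτ
      obtain ⟨m, k22, k01, k02, k12, k1, k2⟩ := conj_vals H hτ lτ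
      have := r1 _ m τ hτ k22 lτ
      rw [k12, k2, ← hχd] at this
      have h3 : (χ⁻¹ - χ) * (lin τ 1 2 * tr τ 2) = 0 := by linear_combination this
      exact (mul_eq_zero.1 h3).resolve_left hne
    have h2 : lin τ₀ 1 2 = 0 := (mul_eq_zero.1 (h1 τ₀ hτ₀ l0)).resolve_right c0'
    intro τ hτ lτ
    have := r1 τ hτ τ₀ hτ₀ lτ l0
    rw [h2, zero_mul] at this
    exact (mul_eq_zero.1 this).resolve_right c0'
  -- separation of the relation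
  have sep : ∀ σ ∈ D.Γ, ∀ τ ∈ D.Γ, lin σ 2 2 = 1 → lin τ 2 2 = 1 →
      lin σ 0 2 * tr τ 2 = 0 ∧ lin σ 0 1 * tr τ 1 = 0 := by
    intro σ hσ τ hτ lσ lτ
    obtain ⟨m1, k22, k01, k02, -, k1, k2⟩ := conj_vals H hτ lτ
    obtain ⟨m2, p22, p01, p02, -, p1, p2⟩ := conj_vals H m1 k22
    obtain ⟨m3, q22, q01, q02, -, q1, q2⟩ := conj_vals H m2 p22
    have f0 := r0 σ hσ τ hτ lσ lτ
    have f1 := r0 σ hσ _ m1 lσ k22
    have f2 := r0 σ hσ _ m2 lσ p22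
    have f3 := r0 σ hσ _ m3 lσ q22
    rw [q01, q02, q1, q2, p01, p02, p1, p2, k01, k02, k1, k2, ← hχd] at f3
    rw [p01, p02, p1, p2, k01, k02, k1, k2, ← hχd] at f2
    rw [k01, k02, k1, k2, ← hχd] at f1
    have hi1 : χ * χ⁻¹ = 1 := mul_inv_cancel₀ hχ0.ne'
    apply poly4 (C := -(lin τ 0 1 * tr σ 1)) (E' := -(lin τ 0 2 * tr σ 2)) hχ0 H.hχ
    · linear_combination f0
    · have e1 : χ ^ 2 * (χ⁻¹ * lin τ 0 1 * tr σ 1) = χ * (lin τ 0 1 * tr σ 1) := by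
        field_simp
      have e2 : χ ^ 2 * (χ⁻¹ ^ 2 * lin τ 0 2 * tr σ 2) = lin τ 0 2 * tr σ 2 := by
        field_simp
      linear_combination χ ^ 2 * f1 + e1 + e2
    · have e1 : χ ^ 4 * (χ⁻¹ * (χ⁻¹ * lin τ 0 1) * tr σ 1) = χ ^ 2 * (lin τ 0 1 * tr σ 1) := by
        field_simp
      have e2 : χ ^ 4 * (χ⁻¹ ^ 2 * (χ⁻¹ ^ 2 * lin τ 0 2) * tr σ 2) = lin τ 0 2 * tr σ 2 := by
        field_simp
      linear_combination χ ^ 4 * f2 + e1 + e2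
    · have e1 : χ ^ 6 * (χ⁻¹ * (χ⁻¹ * (χ⁻¹ * lin τ 0 1)) * tr σ 1) =
          χ ^ 3 * (lin τ 0 1 * tr σ 1) := by
        field_simp
      have e2 : χ ^ 6 * (χ⁻¹ ^ 2 * (χ⁻¹ ^ 2 * (χ⁻¹ ^ 2 * lin τ 0 2)) * tr σ 2) =
          lin τ 0 2 * tr σ 2 := by
        field_simp
      linear_combination χ ^ 6 * f3 + e1 + e2
  have e02 : ∀ τ ∈ D.Γ, lin τ 2 2 = 1 → lin τ 0 2 = 0 := by
    intro τ hτ lτ
    exact (mul_eq_zero.1 (sep τ hτ τ₀ hτ₀ lτ l0).1).resolve_right c0'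
  by_cases hα : ∀ τ ∈ D.Γ, lin τ 2 2 = 1 → lin τ 0 1 = 0
  · -- unipotent elements are translations
    exfalso
    apply hinv
    intro h hh
    have hm : h * g * h⁻¹ * g⁻¹ ∈ D.Γ :=
      mul_mem (mul_mem (mul_mem hh H.hg) (inv_mem hh)) (inv_mem H.hg)
    have hl : lin (h * g * h⁻¹ * g⁻¹) 2 2 = 1 := by
      have h1 : chi D H.hT 2 (⟨h, hh⟩ * ⟨g, H.hg⟩ * ⟨h, hh⟩⁻¹ * ⟨g, H.hg⟩⁻¹) = 1 := by
        rw [map_mul, map_mul, map_mul, map_inv, map_inv, chi_apply, chi_apply]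
        have p1 := (H.pos hh).ne'
        have p2 := hχ0.ne'
        simp only
        rw [← hχd]
        field_simp
      exact h1
    have h01 := hα _ hm hl
    have he : (h * g * h⁻¹ * g⁻¹) * (g * h) = h * g := by group
    have f := congrArg (fun γ : Aff3 => lin γ 0 1) he
    rw [mul01 (H.hT _ hm) (H.hT _ (mul_mem H.hg hh)), mul01 (H.hT _ hh) (H.hT _ H.hg),
      mul01 (H.hT _ H.hg) (H.hT _ hh), h01, H.h0 _ hm, hl, H.g01, H.h1 _ H.hg, H.h0 _ H.hg,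
      ← hχd] at f
    have h3 : (χ⁻¹ - 1) * lin h 0 1 = 0 := by
      linear_combination f
    refine (mul_eq_zero.1 h3).resolve_left ?_
    intro h4
    exact H.hχ (inv_eq_one.1 (by linarith))
  · exfalso
    push Not at hα
    obtain ⟨σ, hσ, lσ, hσα⟩ := hα
    have hb : ∀ τ ∈ D.Γ, lin τ 2 2 = 1 → tr τ 1 = 0 := by
      intro τ hτ lτ
      exact (mul_eq_zero.1 (sep σ hσ τ hτ lσ lτ).2).resolve_left hσα
    have d0 : lin σ 0 0 = 1 := by rw [H.h0 _ hσ, lσ, inv_one]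
    by_cases hc : tr σ 2 = 0
    · -- a fixed plane
      have ha : (![0, lin σ 0 1, 0] : E) ≠ 0 := by
        intro h0
        exact hσα (by simpa using congrFun h0 1)
      obtain ⟨x, hx, hx2⟩ := hF2 D ![0, lin σ 0 1, 0] (-tr σ 0) ha
      simp at hx2
      have hfix : σ x = x := by
        ext i
        fin_cases i
        · show σ x 0 = x 0
          rw [act0, d0, e02 σ hσ lσ]; linarith
        · show σ x 1 = x 1
          rw [act1 (H.hT _ hσ), H.h1 _ hσ, e12 σ hσ lσ, hb σ hσ lσ]; ring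
        · show σ x 2 = x 2
          rw [act2 (H.hT _ hσ), lσ, hc]; ring
      have h1 := D.free σ hσ x hx hfix
      apply hσα
      rw [h1]
      simp [lin_one]
    · obtain ⟨m, k22, k01, k02, k12, k1, k2⟩ := conj_vals H hσ lσ
      refine hY D σ (g * σ * g⁻¹) H.hT hσ m ?_ ?_ (e02 σ hσ lσ) (e12 σ hσ lσ) (hb σ hσ lσ)
        (e02 _ m k22) (e12 _ m k22) (hb _ m k22) hc ?_ ?_
      · intro i
        fin_cases i
        · exact d0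
        · exact H.h1 _ hσ
        · exact lσ
      · intro i
        fin_cases i
        · show lin (g * σ * g⁻¹) 0 0 = 1
          rw [H.h0 _ m, k22, inv_one]
        · exact H.h1 _ m
        · exact k22
      · rw [k2]
        exact mul_ne_zero hχ0.ne' hc
      · rw [k01, k2, ← hχd]
        intro h
        have h3 : (χ⁻¹ - χ) * (lin σ 0 1 * tr σ 2) = 0 := by linear_combination -h
        rcases mul_eq_zero.1 h3 with h4 | h4
        · exact hne h4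
        · exact (mul_ne_zero hσα hc) h4

theorem thm_b2iv (hN : S_norm) (hC : S_comm) (hY : S_ys) (hD : S_densN) (hX : S_noX) (hT2 : S_T2)
    (hF2 : S_F2) (hconj : S_conj) : S_b2iv := by
  intro D hP ⟨g₀, hg₀, hχ₀⟩
  obtain ⟨hT, hprp⟩ := hP
  obtain ⟨φ, D', hT', hφ, hφ1, hmem, hΩ, hdiag, n01, n12, n02, nt⟩ := hN D g₀ hT hg₀
  have h0 : ∀ γ ∈ D.Γ, lin γ 0 0 = (lin γ 2 2)⁻¹ := by
    intro γ hγ
    rw [hprp γ hγ, Real.rpow_neg_one]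
  have h1 : ∀ γ ∈ D.Γ, lin γ 1 1 = 1 := by
    intro γ hγ
    obtain ⟨-, -, -, -, -, p, q⟩ := hT γ hγ
    rw [h0 γ hγ] at q
    have : (lin γ 2 2)⁻¹ * lin γ 2 2 = 1 := inv_mul_cancel₀ p.ne'
    linear_combination q - lin γ 1 1 * this
  have hd' : ∀ γ' ∈ D'.Γ, ∃ γ ∈ D.Γ, ∀ i, lin γ' i i = lin γ i i := by
    intro γ' hγ'
    have h := (hmem γ').1 hγ'
    refine ⟨_, h, ?_⟩
    have := (hdiag _ h).2
    have he : φ * (φ⁻¹ * γ' * φ) * φ⁻¹ = γ' := by group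
    rw [he] at this
    exact this
  have hp := (hT g₀ hg₀).2.2.2.2.2.1
  have hi : (lin g₀ 2 2)⁻¹ ≠ 1 := fun h => hχ₀ (inv_eq_one.1 h)
  have H : Dat D' (φ * g₀ * φ⁻¹) := by
    refine ⟨hT', ?_, ?_, (hdiag g₀ hg₀).1, ?_, n01 ?_, n02 ?_, n12 ?_, nt 0 ?_, nt 2 hχ₀⟩
    · intro γ' hγ'
      obtain ⟨γ, hγ, he⟩ := hd' γ' hγ'
      rw [he, he, h0 γ hγ]
    · intro γ' hγ'
      obtain ⟨γ, hγ, he⟩ := hd' γ' hγ'
      rw [he, h1 γ hγ]
    · rw [(hdiag g₀ hg₀).2]; exact hχ₀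
    · rw [h0 g₀ hg₀, h1 g₀ hg₀]; exact hi
    · rw [h0 g₀ hg₀]
      intro h
      have h2 : lin g₀ 2 2 * lin g₀ 2 2 = 1 := by
        nth_rewrite 1 [← h]
        exact inv_mul_cancel₀ hp.ne'
      have h3 : (lin g₀ 2 2 - 1) * (lin g₀ 2 2 + 1) = 0 := by linear_combination h2
      rcases mul_eq_zero.1 h3 with h4 | h4
      · exact hχ₀ (by linarith)
      · linarith
    · rw [h1 g₀ hg₀]; exact hχ₀.symm
    · rw [h0 g₀ hg₀]; exact hi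
  have hΩ' := core hC hY hD hX hT2 hF2 hconj H
  rw [hΩ] at hΩ'
  rw [eq_univ_iff_forall] at hΩ' ⊢
  intro x
  obtain ⟨y, hy, hxy⟩ := hΩ' (φ x)
  rwa [φ.injective hxy] at hy

end Pool.Agent.Helper82.K3.b2iv
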