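import Pool.Agent.Helper82.K3.flag

/-!
# Flag systems: density and limits of flags

Proves `S_dens` and `S_flim` from `S_gen`.
-/

set_option autoImplicit false

open Set Filter Topology Matrix

namespace Pool.Agent.Helper82.K3.dens

open Pool.Agent.Helper77.K3 Pool.Agent.Helper82.K3.flag

theorem m_pow (F : FS) (n : ℕ) : F.m (F.g ^ n) = Matrix.diagonal (fun i => F.ν i ^ n) := by
  have h : F.m (F.g ^ n) = F.m F.g ^ n := by
    simp [FS.m]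
  rw [h]
  have h2 : F.m F.g = Matrix.diagonal F.ν := F.diag
  rw [h2, Matrix.diagonal_pow]
  rfl

theorem ν_pos (F : FS) (i : Fin 3) : 0 < F.ν i := by
  have h2 := F.pos
  have h1 := F.lt1
  have h0 := F.lt0
  fin_cases i <;> simp <;> linarith

theorem m_pow_inv (F : FS) (n : ℕ) :
    F.m (F.g ^ n)⁻¹ = Matrix.diagonal (fun i => (F.ν i)⁻¹ ^ n) := by
  have h1 : F.m (F.g ^ n)⁻¹ * F.m (F.g ^ n) = 1 := m_inv_mul F _
  have h2 : F.m (F.g ^ n) * Matrix.diagonal (fun i => (F.ν i)⁻¹ ^ n) = 1 := by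
    rw [m_pow, Matrix.diagonal_mul_diagonal]
    have : (fun i => F.ν i ^ n * (F.ν i)⁻¹ ^ n) = 1 := by
      funext i
      have := (ν_pos F i).ne'
      rw [← mul_pow, mul_inv_cancel₀ this, one_pow]
      rfl
    rw [this]
    exact Matrix.diagonal_one
  calc F.m (F.g ^ n)⁻¹ = F.m (F.g ^ n)⁻¹ * (F.m (F.g ^ n) *
        Matrix.diagonal (fun i => (F.ν i)⁻¹ ^ n)) := by rw [h2, mul_one]
    _ = Matrix.diagonal (fun i => (F.ν i)⁻¹ ^ n) := by rw [← mul_assoc, h1, one_mul]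

/-- Three consecutive zeros of an exponential sum. -/
theorem vander {r c : Fin 3 → ℝ} (h01 : r 0 ≠ r 1) (h02 : r 0 ≠ r 2) (h12 : r 1 ≠ r 2)
    (h0 : c 0 + c 1 + c 2 = 0) (h1 : c 0 * r 0 + c 1 * r 1 + c 2 * r 2 = 0)
    (h2 : c 0 * r 0 ^ 2 + c 1 * r 1 ^ 2 + c 2 * r 2 ^ 2 = 0) : ∀ i, c i = 0 := by
  have e0 : c 0 * ((r 0 - r 1) * (r 0 - r 2)) = 0 := by
    linear_combination h2 - (r 1 + r 2) * h1 + r 1 * r 2 * h0
  have e1 : c 1 * ((r 1 - r 0) * (r 1 - r 2)) = 0 := by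
    linear_combination h2 - (r 0 + r 2) * h1 + r 0 * r 2 * h0
  have e2 : c 2 * ((r 2 - r 0) * (r 2 - r 1)) = 0 := by
    linear_combination h2 - (r 0 + r 1) * h1 + r 0 * r 1 * h0
  have a01 := sub_ne_zero.2 h01
  have a02 := sub_ne_zero.2 h02
  have a12 := sub_ne_zero.2 h12
  have b01 := sub_ne_zero.2 h01.symm
  have b02 := sub_ne_zero.2 h02.symm
  have b12 := sub_ne_zero.2 h12.symm
  intro i
  fin_cases i
  · simpa [a01, a02] using e0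
  · simpa [b01, a12] using e1
  · simpa [b02, b12] using e2

/-- An exponential sum with a nonzero coefficient is frequently nonzero. -/
theorem freq {r c : Fin 3 → ℝ} (hr : ∀ i, 0 < r i) (h01 : r 0 ≠ r 1) (h02 : r 0 ≠ r 2)
    (h12 : r 1 ≠ r 2) (hc : ∃ i, c i ≠ 0) (N : ℕ) :
    ∃ n ≥ N, c 0 * r 0 ^ n + c 1 * r 1 ^ n + c 2 * r 2 ^ n ≠ 0 := by
  by_contra hcon
  push Not at hcon
  have k0 := hcon N le_rfl
  have k1 := hcon (N + 1) (by omega)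
  have k2 := hcon (N + 2) (by omega)
  obtain ⟨i, hi⟩ := hc
  have := vander (r := r) (c := fun i => c i * r i ^ N) h01 h02 h12 k0
    (by rw [← k1]; ring) (by rw [← k2]; ring) i
  have hpos := pow_pos (hr i) N
  rcases mul_eq_zero.1 this with h | h
  · exact hi h
  · exact hpos.ne' h

/-- The sequence of flags converging to the base flag (up to sign). -/
theorem lim1 (F : FS) (h : F.G) (hh : F.m h 2 2 ≠ 0) :
    Tendsto (fun n : ℕ => (F.ν 2 ^ n * (F.m h 2 2)⁻¹) • (F.m ((F.g ^ n)⁻¹ * h) *ᵥ e 2)) atTop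
      (𝓝 (e 2)) := by
  rw [tendsto_pi_nhds]
  intro i
  have hval : ∀ n : ℕ, ((F.ν 2 ^ n * (F.m h 2 2)⁻¹) • (F.m ((F.g ^ n)⁻¹ * h) *ᵥ e 2)) i =
      (F.ν 2 * (F.ν i)⁻¹) ^ n * (F.m h i 2 * (F.m h 2 2)⁻¹) := by
    intro n
    rw [Pi.smul_apply, mulVec_e, m_mul, m_pow_inv, Matrix.diagonal_mul, smul_eq_mul, mul_pow]
    ring
  simp only [hval]
  have h2 := F.pos
  have h1 := F.lt1
  have h0 := F.lt0
  have hgen : ∀ j : Fin 3, F.ν 2 < F.ν j →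
      Tendsto (fun n : ℕ => (F.ν 2 * (F.ν j)⁻¹) ^ n * (F.m h j 2 * (F.m h 2 2)⁻¹)) atTop (𝓝 0) := by
    intro j hj
    have hp := ν_pos F j
    have : Tendsto (fun n : ℕ => (F.ν 2 * (F.ν j)⁻¹) ^ n) atTop (𝓝 0) := by
      apply tendsto_pow_atTop_nhds_zero_of_lt_one
      · positivity
      · rw [← div_eq_mul_inv, div_lt_one hp]
        exact hj
    simpa using this.mul_const (F.m h j 2 * (F.m h 2 2)⁻¹)
  fin_cases i
  · simpa [e] using hgen 0 (by linarith)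
  · simpa [e] using hgen 1 h1
  · have : F.ν 2 ≠ 0 := h2.ne'
    simp [e, this, hh]

theorem lim2 (F : FS) (h : F.G) (hh : F.m h⁻¹ 0 0 ≠ 0) :
    Tendsto (fun n : ℕ => ((F.ν 0)⁻¹ ^ n * (F.m h⁻¹ 0 0)⁻¹) • (e 0 ᵥ* F.m ((F.g ^ n)⁻¹ * h)⁻¹)) atTop
      (𝓝 (e 0)) := by
  rw [tendsto_pi_nhds]
  intro i
  have hval : ∀ n : ℕ, (((F.ν 0)⁻¹ ^ n * (F.m h⁻¹ 0 0)⁻¹) • (e 0 ᵥ* F.m ((F.g ^ n)⁻¹ * h)⁻¹)) i =
      ((F.ν 0)⁻¹ * F.ν i) ^ n * (F.m h⁻¹ 0 i * (F.m h⁻¹ 0 0)⁻¹) := by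
    intro n
    have e1 : ((F.g ^ n)⁻¹ * h)⁻¹ = h⁻¹ * F.g ^ n := by group
    have e2 : (e 0 ᵥ* F.m ((F.g ^ n)⁻¹ * h)⁻¹) i = F.m ((F.g ^ n)⁻¹ * h)⁻¹ 0 i := by
      simp [e]
    rw [Pi.smul_apply, e2, e1, m_mul, m_pow, Matrix.mul_diagonal, smul_eq_mul, mul_pow]
    ring
  simp only [hval]
  have h2 := F.pos
  have h1 := F.lt1
  have h0 := F.lt0
  have hp := ν_pos F 0
  have hgen : ∀ j : Fin 3, F.ν j < F.ν 0 →
      Tendsto (fun n : ℕ => ((F.ν 0)⁻¹ * F.ν j) ^ n * (F.m h⁻¹ 0 j * (F.m h⁻¹ 0 0)⁻¹)) atTop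
        (𝓝 0) := by
    intro j hj
    have hpj := ν_pos F j
    have : Tendsto (fun n : ℕ => ((F.ν 0)⁻¹ * F.ν j) ^ n) atTop (𝓝 0) := by
      apply tendsto_pow_atTop_nhds_zero_of_lt_one
      · positivity
      · rw [mul_comm, ← div_eq_mul_inv, div_lt_one hp]
        exact hj
    simpa using this.mul_const (F.m h⁻¹ 0 j * (F.m h⁻¹ 0 0)⁻¹)
  fin_cases i
  · have : F.ν 0 ≠ 0 := hp.ne'
    simp [e, this, hh]
  · simpa [e] using hgen 1 h0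
  · simpa [e] using hgen 2 (by linarith)

/-- (3.2): the sign of the product of the two corner entries. -/
theorem corner (hg : S_gen) (F : FS) (h : F.G) (h1 : F.m h 2 2 ≠ 0) (h2 : F.m h⁻¹ 0 0 ≠ 0) :
    0 < F.m h 2 2 * F.m h⁻¹ 0 0 := by
  by_contra hcon
  have hlt : F.m h 2 2 * F.m h⁻¹ 0 0 < 0 := lt_of_le_of_ne (not_lt.1 hcon) (mul_ne_zero h1 h2)
  apply not_neg hg F (base_mem F)
  simp only
  have l1 := (lim1 F h h1).neg
  have l2 := lim2 F h h2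
  have l := l1.prodMk_nhds l2
  apply fl_closed F (mem_closure_of_tendsto l (Eventually.of_forall fun n => ?_))
  · simpa using e_ne 2
  · exact e_ne 0
  · rw [← neg_smul]
    have hb := fl_act F (base_mem F) ((F.g ^ n)⁻¹ * h)
    refine fl_smul F hb ?_
    have p0 := pow_pos (inv_pos.2 (ν_pos F 0)) n
    have p2 := pow_pos (ν_pos F 2) n
    have e1 : -(F.ν 2 ^ n * (F.m h 2 2)⁻¹) * ((F.ν 0)⁻¹ ^ n * (F.m h⁻¹ 0 0)⁻¹) =
      (F.ν 2 ^ n * (F.ν 0)⁻¹ ^ n) * (-(F.m h 2 2 * F.m h⁻¹ 0 0)⁻¹) := by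
      rw [_root_.mul_inv]
      ring
    rw [e1]
    apply mul_pos (mul_pos p2 p0)
    rw [Left.neg_pos_iff]
    exact inv_lt_zero.2 hlt

theorem thm_dens (hg : S_gen) : S_dens := by
  intro F p hp ψ hψ ε hε
  obtain ⟨p', hp', hd⟩ := Metric.mem_closure_iff.1 hp.1 (ε / 2) (by positivity)
  obtain ⟨f, a, b, hab, rfl⟩ := hp'
  have hη : ψ ᵥ* F.m f ≠ 0 := vecMul_ne F f hψ
  obtain ⟨i, hi⟩ : ∃ i, (ψ ᵥ* F.m f) i ≠ 0 := by
    by_contra hcon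
    push Not at hcon
    exact hη (funext hcon)
  obtain ⟨h, hα, hβ⟩ := gen' hg F Bool Unit (fun c => if c then e 2 else e i) (fun _ => e 2)
    (fun _ => e 0) (fun _ => e 0) (fun c => by cases c <;> simp [e_ne]) (fun _ => e_ne 2)
    (fun _ => e_ne 0) (fun _ => e_ne 0)
  have k1 : F.m h 2 2 ≠ 0 := by
    have := hα true
    simpa [e_dot_mulVec_e] using this
  have k2 : F.m h i 2 ≠ 0 := by
    have := hα false
    simpa [e_dot_mulVec_e] using this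
  have k3 : F.m h⁻¹ 0 0 ≠ 0 := by
    have := hβ ()
    simpa [e_dot_mulVec_e] using this
  have hcorner := corner hg F h k1 k3
  -- the approximating flags
  have hmem : ∀ n : ℕ, (a • (F.m f *ᵥ ((F.ν 2 ^ n * (F.m h 2 2)⁻¹) •
      (F.m ((F.g ^ n)⁻¹ * h) *ᵥ e 2))),
      b • ((((F.ν 0)⁻¹ ^ n * (F.m h⁻¹ 0 0)⁻¹) • (e 0 ᵥ* F.m ((F.g ^ n)⁻¹ * h)⁻¹)) ᵥ* F.m f⁻¹))
      ∈ F.fl := by
    intro n
    have hb := fl_act F (base_mem F) ((F.g ^ n)⁻¹ * h)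
    have p0 := pow_pos (inv_pos.2 (ν_pos F 0)) n
    have p2 := pow_pos (ν_pos F 2) n
    have hb2 := fl_smul F hb (a := F.ν 2 ^ n * (F.m h 2 2)⁻¹)
      (b := (F.ν 0)⁻¹ ^ n * (F.m h⁻¹ 0 0)⁻¹) (by
        have e1 : (F.ν 2 ^ n * (F.m h 2 2)⁻¹) * ((F.ν 0)⁻¹ ^ n * (F.m h⁻¹ 0 0)⁻¹) =
          (F.ν 2 ^ n * (F.ν 0)⁻¹ ^ n) * (F.m h 2 2 * F.m h⁻¹ 0 0)⁻¹ := by
          rw [_root_.mul_inv]
          ring
        rw [e1]
        positivity)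
    have hb3 := fl_act F hb2 f
    exact fl_smul F hb3 hab
  have hlim : Tendsto (fun n : ℕ => (a • (F.m f *ᵥ ((F.ν 2 ^ n * (F.m h 2 2)⁻¹) •
      (F.m ((F.g ^ n)⁻¹ * h) *ᵥ e 2))),
      b • ((((F.ν 0)⁻¹ ^ n * (F.m h⁻¹ 0 0)⁻¹) • (e 0 ᵥ* F.m ((F.g ^ n)⁻¹ * h)⁻¹)) ᵥ* F.m f⁻¹)))
      atTop (𝓝 (a • (F.m f *ᵥ e 2), b • (e 0 ᵥ* F.m f⁻¹))) := by
    have c1 : Continuous (fun x : E => a • (F.m f *ᵥ x)) :=
      (continuous_const.matrix_mulVec continuous_id).const_smul a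
    have c2 : Continuous (fun x : E => b • (x ᵥ* F.m f⁻¹)) :=
      (continuous_id.matrix_vecMul continuous_const).const_smul b
    exact (((c1.tendsto _).comp (lim1 F h k1)).prodMk_nhds ((c2.tendsto _).comp (lim2 F h k3)))
  obtain ⟨N, hN⟩ := (Metric.tendsto_atTop.1 hlim) (ε / 2) (by positivity)
  have h2 := F.pos
  have h1 := F.lt1
  have h0 := F.lt0
  have n0 := ν_pos F 0
  have n1 := ν_pos F 1
  obtain ⟨n, hn, hne⟩ := freq (r := fun j => (F.ν j)⁻¹)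
    (c := fun j => (ψ ᵥ* F.m f) j * F.m h j 2) (fun j => inv_pos.2 (ν_pos F j))
    (fun hh => h0.ne' (inv_injective hh)) (fun hh => (h1.trans h0).ne' (inv_injective hh))
    (fun hh => h1.ne' (inv_injective hh)) ⟨i, mul_ne_zero hi k2⟩ N
  refine ⟨_, hmem n, ?_, ?_⟩
  · rw [← dist_eq_norm]
    have t1 := hN n hn
    calc dist _ p ≤ dist _ (a • (F.m f *ᵥ e 2), b • (e 0 ᵥ* F.m f⁻¹)) +
          dist (a • (F.m f *ᵥ e 2), b • (e 0 ᵥ* F.m f⁻¹)) p := dist_triangle _ _ _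
      _ < ε / 2 + ε / 2 := by
          apply add_lt_add t1
          rw [dist_comm]
          exact hd
      _ = ε := by ring
  · simp only
    rw [mulVec_smul, dotProduct_smul, dotProduct_smul, dotProduct_mulVec]
    have ha : a ≠ 0 := by rintro rfl; simp at hab
    have p2 := pow_pos (ν_pos F 2) n
    apply smul_ne_zero ha
    apply smul_ne_zero (mul_ne_zero p2.ne' (inv_ne_zero k1))
    have hval : (ψ ᵥ* F.m f) ⬝ᵥ (F.m ((F.g ^ n)⁻¹ * h) *ᵥ e 2) =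
      (ψ ᵥ* F.m f) 0 * F.m h 0 2 * (F.ν 0)⁻¹ ^ n + (ψ ᵥ* F.m f) 1 * F.m h 1 2 * (F.ν 1)⁻¹ ^ n +
        (ψ ᵥ* F.m f) 2 * F.m h 2 2 * (F.ν 2)⁻¹ ^ n := by
      rw [dotProduct, Fin.sum_univ_three]
      simp only [mulVec_e, m_mul, m_pow_inv, Matrix.diagonal_mul]
      ring
    rw [hval]
    exact hne

theorem thm_flim (hg : S_gen) : S_flim := by
  intro F f c x φ hx hφ hlim
  obtain ⟨h, hα, -⟩ := gen' hg F Unit Empty (fun _ => φ) (fun _ => e 2)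
    (fun i => i.elim) (fun i => i.elim) (fun _ => hφ) (fun _ => e_ne 2)
    (fun i => i.elim) (fun i => i.elim)
  have hα := hα ()
  set t : ℝ := φ ⬝ᵥ (F.m h *ᵥ e 2) with ht
  have hl : Tendsto (fun n => ((c n)⁻¹ • F.m (f n)) *ᵥ (F.m h *ᵥ e 2)) atTop (𝓝 (t • x)) := by
    have c1 : Continuous (fun A : M3 => A *ᵥ (F.m h *ᵥ e 2)) :=
      continuous_id.matrix_mulVec continuous_const
    have := (c1.tendsto _).comp hlim
    have e1 : vecMulVec x φ *ᵥ (F.m h *ᵥ e 2) = t • x := by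
      rw [vecMulVec_mulVec, ht]
      simp
    rw [e1] at this
    exact this
  have htx : t • x ≠ 0 := smul_ne_zero hα hx
  have hev : ∀ᶠ n in atTop, ((c n)⁻¹ • F.m (f n)) *ᵥ (F.m h *ᵥ e 2) ≠ 0 :=
    hl.eventually_ne htx
  have hcl : t • x ∈ closure {x | ∃ φ, (x, φ) ∈ F.fl} := by
    apply mem_closure_of_tendsto hl
    filter_upwards [hev] with n hn
    have hc : (c n)⁻¹ ≠ 0 := by
      intro h0
      apply hn
      rw [h0, zero_smul, zero_mulVec]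
    have hb := fl_act F (fl_act F (base_mem F) h) (f n)
    have hb2 := fl_smul F hb (a := (c n)⁻¹) (b := (c n)⁻¹) (mul_self_pos.2 hc)
    rw [smul_mulVec]
    exact ⟨_, hb2⟩
  obtain ⟨ψ, hψ⟩ := proj1 F hcl htx
  refine ⟨t⁻¹ • ψ, ?_⟩
  have := fl_smul F hψ (a := t⁻¹) (b := t⁻¹) (mul_self_pos.2 (inv_ne_zero hα))
  simpa [smul_smul, inv_mul_cancel₀ hα] using this

end Pool.Agent.Helper82.K3.dens
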