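import Pool.Agent.Helper77.K3.DefsI

/-!
# Flag systems: basic properties

Proves `S_flag` from `S_gen`.  Also a convenient form `gen'` of the general position statement.
-/

set_option autoImplicit false

open Set Filter Topology Matrix

namespace Pool.Agent.Helper82.K3.flag

open Pool.Agent.Helper77.K3

/-- The functional defined by a vector. -/
def dl (w : E) : E →ₗ[ℝ] ℝ where
  toFun v := w ⬝ᵥ v
  map_add' x y := dotProduct_add w x y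
  map_smul' c x := by simp [dotProduct_smul]

theorem dl_ne {w : E} (hw : w ≠ 0) : dl w ≠ 0 := by
  intro h
  apply hw
  have h1 : w ⬝ᵥ w = 0 := by
    have := congrArg (fun l : E →ₗ[ℝ] ℝ => l w) h
    simpa [dl] using this
  exact dotProduct_self_eq_zero.1 h1

/-- General position for flag systems. -/
theorem gen' (h : S_gen) (F : FS) (ι κ : Type) [Finite ι] [Finite κ] (α v : ι → E) (β w : κ → E)
    (hα : ∀ i, α i ≠ 0) (hv : ∀ i, v i ≠ 0) (hβ : ∀ i, β i ≠ 0) (hw : ∀ i, w i ≠ 0) :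
    ∃ f : F.G, (∀ i, α i ⬝ᵥ (F.m f *ᵥ v i) ≠ 0) ∧ (∀ i, β i ⬝ᵥ (F.m f⁻¹ *ᵥ w i) ≠ 0) := by
  obtain ⟨f, h1, h2⟩ := h F.G E (linRep F.ρ) F.irr ι κ (fun i => dl (α i)) v (fun i => dl (β i)) w
    (fun i => dl_ne (hα i)) hv (fun i => dl_ne (hβ i)) hw
  exact ⟨f, h1, h2⟩

theorem m_mul (F : FS) (f f' : F.G) : F.m (f * f') = F.m f * F.m f' := by
  simp [FS.m]

theorem m_one (F : FS) : F.m 1 = 1 := by
  simp [FS.m]

theorem m_inv_mul (F : FS) (f : F.G) : F.m f⁻¹ * F.m f = 1 := by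
  rw [← m_mul, inv_mul_cancel, m_one]

theorem m_mul_inv (F : FS) (f : F.G) : F.m f * F.m f⁻¹ = 1 := by
  rw [← m_mul, mul_inv_cancel, m_one]

theorem e_ne (i : Fin 3) : e i ≠ 0 := by
  intro h
  have := congrFun h i
  simp [e] at this

theorem e_dot (i : Fin 3) (v : E) : e i ⬝ᵥ v = v i := by
  simp [e]

theorem dot_e (i : Fin 3) (v : E) : v ⬝ᵥ e i = v i := by
  simp [e]

theorem mulVec_e (A : M3) (i j : Fin 3) : (A *ᵥ e j) i = A i j := by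
  simp [e]

theorem e_dot_mulVec_e (A : M3) (i j : Fin 3) : e i ⬝ᵥ (A *ᵥ e j) = A i j := by
  rw [e_dot, mulVec_e]

/-- An injectivity statement. -/
theorem mulVec_ne (F : FS) (f : F.G) {x : E} (hx : x ≠ 0) : F.m f *ᵥ x ≠ 0 := by
  intro h
  apply hx
  have : F.m f⁻¹ *ᵥ (F.m f *ᵥ x) = 0 := by rw [h, mulVec_zero]
  rwa [mulVec_mulVec, m_inv_mul, one_mulVec] at this

theorem vecMul_ne (F : FS) (f : F.G) {x : E} (hx : x ≠ 0) : x ᵥ* F.m f ≠ 0 := by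
  intro h
  apply hx
  have : (x ᵥ* F.m f) ᵥ* F.m f⁻¹ = 0 := by rw [h, zero_vecMul]
  rwa [vecMul_vecMul, m_mul_inv, vecMul_one] at this

theorem vecMul_dot (F : FS) (f : F.G) (x y : E) :
    (x ᵥ* F.m f⁻¹) ⬝ᵥ (F.m f *ᵥ y) = x ⬝ᵥ y := by
  rw [← dotProduct_mulVec, mulVec_mulVec, m_inv_mul, one_mulVec]

/-- The base flag. -/
theorem base_mem (F : FS) : (e 2, e 0) ∈ F.fl := by
  refine ⟨subset_closure ⟨1, 1, 1, by norm_num, ?_⟩, e_ne 2, e_ne 0⟩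
  simp [m_one]

theorem orb_smul (F : FS) {p : E × E} (hp : p ∈ F.orb) {a b : ℝ} (hab : 0 < a * b) :
    (a • p.1, b • p.2) ∈ F.orb := by
  obtain ⟨f, a', b', h, rfl⟩ := hp
  refine ⟨f, a * a', b * b', ?_, ?_⟩
  · have : a * a' * (b * b') = (a * b) * (a' * b') := by ring
    rw [this]
    positivity
  · simp [smul_smul]

theorem orb_act (F : FS) {p : E × E} (hp : p ∈ F.orb) (f : F.G) :
    (F.m f *ᵥ p.1, p.2 ᵥ* F.m f⁻¹) ∈ F.orb := by
  obtain ⟨f', a', b', h, rfl⟩ := hp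
  refine ⟨f * f', a', b', h, ?_⟩
  simp only [Prod.mk.injEq]
  constructor
  · rw [mulVec_smul, mulVec_mulVec, m_mul]
  · rw [smul_vecMul, vecMul_vecMul, _root_.mul_inv_rev, m_mul]

theorem fl_smul (F : FS) {p : E × E} (hp : p ∈ F.fl) {a b : ℝ} (hab : 0 < a * b) :
    (a • p.1, b • p.2) ∈ F.fl := by
  obtain ⟨h1, h2, h3⟩ := hp
  have ha : a ≠ 0 := by rintro rfl; simp at hab
  have hb : b ≠ 0 := by rintro rfl; simp at hab
  refine ⟨?_, smul_ne_zero ha h2, smul_ne_zero hb h3⟩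
  have hc : Continuous (fun p : E × E => (a • p.1, b • p.2)) := by fun_prop
  have := map_mem_closure (f := fun p : E × E => (a • p.1, b • p.2)) hc h1
    (fun q hq => orb_smul F hq hab)
  exact this

theorem fl_act (F : FS) {p : E × E} (hp : p ∈ F.fl) (f : F.G) :
    (F.m f *ᵥ p.1, p.2 ᵥ* F.m f⁻¹) ∈ F.fl := by
  obtain ⟨h1, h2, h3⟩ := hp
  refine ⟨?_, mulVec_ne F f h2, vecMul_ne F f⁻¹ h3⟩
  have hc : Continuous (fun p : E × E => (F.m f *ᵥ p.1, p.2 ᵥ* F.m f⁻¹)) :=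
    (continuous_const.matrix_mulVec continuous_fst).prodMk
      (continuous_snd.matrix_vecMul continuous_const)
  have := map_mem_closure (f := fun p : E × E => (F.m f *ᵥ p.1, p.2 ᵥ* F.m f⁻¹)) hc h1
    (fun q hq => orb_act F hq f)
  exact this

theorem orb_dot (F : FS) {p : E × E} (hp : p ∈ F.orb) : p.2 ⬝ᵥ p.1 = 0 := by
  obtain ⟨f, a, b, h, rfl⟩ := hp
  simp only [smul_dotProduct, dotProduct_smul, vecMul_dot]
  rw [e_dot]
  simp [e]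

theorem clorb_dot (F : FS) {p : E × E} (hp : p ∈ closure F.orb) : p.2 ⬝ᵥ p.1 = 0 := by
  have hcl : IsClosed {p : E × E | p.2 ⬝ᵥ p.1 = 0} :=
    isClosed_eq (continuous_snd.dotProduct continuous_fst) continuous_const
  exact closure_minimal (fun q hq => orb_dot F hq) hcl hp

theorem orb_NC (F : FS) {p q : E × E} (hp : p ∈ F.orb) (hq : q ∈ F.orb) :
    0 ≤ (p.2 ⬝ᵥ q.1) * (q.2 ⬝ᵥ p.1) := by
  obtain ⟨f, a, b, h, rfl⟩ := hp
  obtain ⟨f', a', b', h', rfl⟩ := hq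
  have key : ∀ s t : F.G, (e 0 ᵥ* F.m s⁻¹) ⬝ᵥ (F.m t *ᵥ e 2) = F.m (s⁻¹ * t) 0 2 := by
    intro s t
    rw [← dotProduct_mulVec, mulVec_mulVec, e_dot_mulVec_e, m_mul]
  simp only [smul_dotProduct, dotProduct_smul, key, smul_eq_mul]
  have hN := F.NC (f⁻¹ * f')
  have hN' : 0 ≤ F.m (f⁻¹ * f') 0 2 * F.m (f'⁻¹ * f) 0 2 := by
    have e1 : (f⁻¹ * f')⁻¹ = f'⁻¹ * f := by group
    rw [e1] at hN
    exact hN
  have e2 : a' * (b * F.m (f⁻¹ * f') 0 2) * (a * (b' * F.m (f'⁻¹ * f) 0 2)) =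
    (a * b) * (a' * b') * (F.m (f⁻¹ * f') 0 2 * F.m (f'⁻¹ * f) 0 2) := by ring
  rw [e2]
  positivity

theorem clorb_NC (F : FS) {p q : E × E} (hp : p ∈ closure F.orb) (hq : q ∈ closure F.orb) :
    0 ≤ (p.2 ⬝ᵥ q.1) * (q.2 ⬝ᵥ p.1) := by
  have hcl : IsClosed {r : (E × E) × (E × E) | 0 ≤ (r.1.2 ⬝ᵥ r.2.1) * (r.2.2 ⬝ᵥ r.1.1)} := by
    apply isClosed_le continuous_const
    apply Continuous.mul
    · exact (continuous_snd.comp continuous_fst).dotProduct (continuous_fst.comp continuous_snd)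
    · exact (continuous_snd.comp continuous_snd).dotProduct (continuous_fst.comp continuous_fst)
  have hsub : F.orb ×ˢ F.orb ⊆ {r : (E × E) × (E × E) | 0 ≤ (r.1.2 ⬝ᵥ r.2.1) * (r.2.2 ⬝ᵥ r.1.1)} := by
    rintro ⟨p, q⟩ ⟨hp, hq⟩
    exact orb_NC F hp hq
  have := closure_minimal hsub hcl
  rw [closure_prod_eq] at this
  exact this (⟨hp, hq⟩ : (p, q) ∈ closure F.orb ×ˢ closure F.orb)

theorem fl_closed (F : FS) {p : E × E} (hp : p ∈ closure F.fl) (h1 : p.1 ≠ 0) (h2 : p.2 ≠ 0) :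
    p ∈ F.fl :=
  ⟨closure_minimal (fun _ hq => hq.1) isClosed_closure hp, h1, h2⟩

theorem not_neg (h : S_gen) (F : FS) {p : E × E} (hp : p ∈ F.fl) : (-p.1, p.2) ∉ F.fl := by
  intro hq
  obtain ⟨f, h1, h2⟩ := gen' h F Unit Unit (fun _ => p.2) (fun _ => e 2) (fun _ => e 0)
    (fun _ => p.1) (fun _ => hp.2.2) (fun _ => e_ne 2) (fun _ => e_ne 0) (fun _ => hp.2.1)
  have h1 := h1 ()
  have h2 := h2 ()
  have hb := (fl_act F (base_mem F) f)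
  have k1 := clorb_NC F hp.1 hb.1
  have k2 := clorb_NC F hq.1 hb.1
  simp only [dotProduct_neg] at k1 k2
  rw [← dotProduct_mulVec] at k1 k2
  have k3 : (p.2 ⬝ᵥ F.m f *ᵥ e 2) * (e 0 ⬝ᵥ F.m f⁻¹ *ᵥ p.1) = 0 := by nlinarith
  rcases mul_eq_zero.1 k3 with k | k
  · exact h1 k
  · exact h2 k

theorem sphere_seq (φ : ℕ → E) (hφ : ∀ n, ‖φ n‖ = 1) :
    ∃ (ψ : E) (k : ℕ → ℕ), StrictMono k ∧ ‖ψ‖ = 1 ∧ Tendsto (φ ∘ k) atTop (𝓝 ψ) := by
  obtain ⟨ψ, hψ, k, hk, hk2⟩ := (isCompact_sphere (0 : E) 1).tendsto_subseq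
    (x := φ) (fun n => by simp [hφ n])
  exact ⟨ψ, k, hk, by simpa using hψ, hk2⟩

theorem proj1 (F : FS) {x : E} (hx : x ∈ closure {x | ∃ φ, (x, φ) ∈ F.fl}) (hx0 : x ≠ 0) :
    ∃ φ, (x, φ) ∈ F.fl := by
  obtain ⟨u, hu, hux⟩ := mem_closure_iff_seq_limit.1 hx
  choose φ hφ using hu
  have hφ0 : ∀ n, φ n ≠ 0 := fun n => (hφ n).2.2
  let φ' : ℕ → E := fun n => ‖φ n‖⁻¹ • φ n
  have hφ' : ∀ n, ‖φ' n‖ = 1 := by
    intro n
    have : ‖φ n‖ ≠ 0 := norm_ne_zero_iff.2 (hφ0 n)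
    simp [φ', norm_smul, this]
  have hm : ∀ n, (u n, φ' n) ∈ F.fl := by
    intro n
    have hpos : 0 < (1 : ℝ) * ‖φ n‖⁻¹ := by
      have : 0 < ‖φ n‖ := norm_pos_iff.2 (hφ0 n)
      positivity
    have := fl_smul F (hφ n) hpos
    simpa using this
  obtain ⟨ψ, k, hk, hψ, hlim⟩ := sphere_seq φ' hφ'
  refine ⟨ψ, fl_closed F ?_ hx0 ?_⟩
  · have hl : Tendsto (fun n => (u (k n), φ' (k n))) atTop (𝓝 (x, ψ)) :=
      (hux.comp hk.tendsto_atTop).prodMk_nhds hlim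
    exact mem_closure_of_tendsto hl (Eventually.of_forall fun n => hm (k n))
  · intro h0
    simp only at h0
    rw [h0] at hψ
    simp at hψ

theorem proj2 (F : FS) {x : E} (hx : x ∈ closure {φ | ∃ x, (x, φ) ∈ F.fl}) (hx0 : x ≠ 0) :
    ∃ y, (y, x) ∈ F.fl := by
  obtain ⟨u, hu, hux⟩ := mem_closure_iff_seq_limit.1 hx
  choose φ hφ using hu
  have hφ0 : ∀ n, φ n ≠ 0 := fun n => (hφ n).2.1
  let φ' : ℕ → E := fun n => ‖φ n‖⁻¹ • φ n
  have hφ' : ∀ n, ‖φ' n‖ = 1 := by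
    intro n
    have : ‖φ n‖ ≠ 0 := norm_ne_zero_iff.2 (hφ0 n)
    simp [φ', norm_smul, this]
  have hm : ∀ n, (φ' n, u n) ∈ F.fl := by
    intro n
    have hpos : 0 < ‖φ n‖⁻¹ * (1 : ℝ) := by
      have : 0 < ‖φ n‖ := norm_pos_iff.2 (hφ0 n)
      positivity
    have := fl_smul F (hφ n) hpos
    simpa using this
  obtain ⟨ψ, k, hk, hψ, hlim⟩ := sphere_seq φ' hφ'
  refine ⟨ψ, fl_closed F ?_ ?_ hx0⟩
  · have hl : Tendsto (fun n => (φ' (k n), u (k n))) atTop (𝓝 (ψ, x)) :=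
      hlim.prodMk_nhds (hux.comp hk.tendsto_atTop)
    exact mem_closure_of_tendsto hl (Eventually.of_forall fun n => hm (k n))
  · intro h0
    simp only at h0
    rw [h0] at hψ
    simp at hψ

theorem thm_flag (h : S_gen) : S_flag := fun F =>
  ⟨base_mem F, fun _ hp _ _ hab => fl_smul F hp hab, fun _ hp f => fl_act F hp f,
    fun _ hp => clorb_dot F hp.1, fun _ hp _ hq => clorb_NC F hp.1 hq.1,
    fun _ hp h1 h2 => fl_closed F hp h1 h2, fun _ hp => not_neg h F hp,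
    fun _ hx hx0 => proj1 F hx hx0, fun _ hx hx0 => proj2 F hx hx0⟩

end Pool.Agent.Helper82.K3.flag
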