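import Pool.Agent.Helper77.K3.DefsII
import Pool.Agent.Helper33.K3.coord

/-!
# Triangular affine maps: product formulas, diagonal characters
-/

set_option autoImplicit false
set_option linter.unusedSectionVars false

open Set Filter Topology

namespace Pool.Agent.Helper82.K3.triApi

open Pool.Agent.Helper77.K3 Pool.Agent.Helper33.K3

theorem act0 (γ : Aff3) (x : E) :
    γ x 0 = lin γ 0 0 * x 0 + lin γ 0 1 * x 1 + lin γ 0 2 * x 2 + tr γ 0 := apply_coord γ x 0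

theorem act1 {γ : Aff3} (h : IsTri γ) (x : E) :
    γ x 1 = lin γ 1 1 * x 1 + lin γ 1 2 * x 2 + tr γ 1 := by
  rw [apply_coord, h.1]; ring

theorem act2 {γ : Aff3} (h : IsTri γ) (x : E) : γ x 2 = lin γ 2 2 * x 2 + tr γ 2 := by
  rw [apply_coord, h.2.1, h.2.2.1]; ring

section mul
variable {γ δ : Aff3} (hγ : IsTri γ) (hδ : IsTri δ)
include hγ hδ

theorem mul00 : lin (γ * δ) 0 0 = lin γ 0 0 * lin δ 0 0 := by
  rw [lin_mul, hδ.1, hδ.2.1]; ring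

theorem mul11 : lin (γ * δ) 1 1 = lin γ 1 1 * lin δ 1 1 := by
  rw [lin_mul, hγ.1, hδ.2.2.1]; ring

theorem mul22 : lin (γ * δ) 2 2 = lin γ 2 2 * lin δ 2 2 := by
  rw [lin_mul, hγ.2.1, hγ.2.2.1]; ring

theorem mul01 : lin (γ * δ) 0 1 = lin γ 0 0 * lin δ 0 1 + lin γ 0 1 * lin δ 1 1 := by
  rw [lin_mul, hδ.2.2.1]; ring

theorem mul12 : lin (γ * δ) 1 2 = lin γ 1 1 * lin δ 1 2 + lin γ 1 2 * lin δ 2 2 := by
  rw [lin_mul, hγ.1]; ring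

theorem mul02 : lin (γ * δ) 0 2 =
    lin γ 0 0 * lin δ 0 2 + lin γ 0 1 * lin δ 1 2 + lin γ 0 2 * lin δ 2 2 := by
  rw [lin_mul]

theorem mul10 : lin (γ * δ) 1 0 = 0 := by
  rw [lin_mul, hγ.1, hδ.1, hδ.2.1]; ring

theorem mul20 : lin (γ * δ) 2 0 = 0 := by
  rw [lin_mul, hγ.2.1, hδ.1, hδ.2.1]; ring

theorem mul21 : lin (γ * δ) 2 1 = 0 := by
  rw [lin_mul, hγ.2.1, hγ.2.2.1, hδ.2.2.1]; ring

theorem mulT0 : tr (γ * δ) 0 =
    lin γ 0 0 * tr δ 0 + lin γ 0 1 * tr δ 1 + lin γ 0 2 * tr δ 2 + tr γ 0 := by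
  rw [tr_mul]

theorem mulT1 : tr (γ * δ) 1 = lin γ 1 1 * tr δ 1 + lin γ 1 2 * tr δ 2 + tr γ 1 := by
  rw [tr_mul, hγ.1]; ring

theorem mulT2 : tr (γ * δ) 2 = lin γ 2 2 * tr δ 2 + tr γ 2 := by
  rw [tr_mul, hγ.2.1, hγ.2.2.1]; ring

theorem mul_tri : IsTri (γ * δ) := by
  have h1 := mul00 hγ hδ
  have h2 := mul11 hγ hδ
  have h3 := mul22 hγ hδ
  obtain ⟨a1, a2, a3, a4, a5, a6, a7⟩ := hγ
  obtain ⟨b1, b2, b3, b4, b5, b6, b7⟩ := hδ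
  refine ⟨mul10 ⟨a1, a2, a3, a4, a5, a6, a7⟩ ⟨b1, b2, b3, b4, b5, b6, b7⟩,
    mul20 ⟨a1, a2, a3, a4, a5, a6, a7⟩ ⟨b1, b2, b3, b4, b5, b6, b7⟩,
    mul21 ⟨a1, a2, a3, a4, a5, a6, a7⟩ ⟨b1, b2, b3, b4, b5, b6, b7⟩, ?_, ?_, ?_, ?_⟩
  · rw [h1]; positivity
  · rw [h2]; positivity
  · rw [h3]; positivity
  · rw [h1, h2, h3]
    calc lin γ 0 0 * lin δ 0 0 * (lin γ 1 1 * lin δ 1 1) * (lin γ 2 2 * lin δ 2 2)
        = (lin γ 0 0 * lin γ 1 1 * lin γ 2 2) * (lin δ 0 0 * lin δ 1 1 * lin δ 2 2) := by ring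
      _ = 1 := by rw [a7, b7, one_mul]

end mul

theorem lin_one (i j : Fin 3) : lin 1 i j = if i = j then 1 else 0 := by
  show (e j : E) i = _
  simp [e, Pi.single_apply]

theorem tr_one (i : Fin 3) : tr 1 i = 0 := rfl

/-- Elements with trivial entries are trivial. -/
theorem eq_one {γ : Aff3} (h : IsTri γ) (h0 : lin γ 0 0 = 1) (h1 : lin γ 1 1 = 1)
    (h2 : lin γ 2 2 = 1) (h01 : lin γ 0 1 = 0) (h02 : lin γ 0 2 = 0) (h12 : lin γ 1 2 = 0)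
    (t0 : tr γ 0 = 0) (t1 : tr γ 1 = 0) (t2 : tr γ 2 = 0) : γ = 1 := by
  apply aff_ext
  · intro i j
    obtain ⟨a1, a2, a3, -⟩ := h
    fin_cases i <;> fin_cases j <;> simp [lin_one, *]
  · intro i
    fin_cases i <;> simp [tr_one, *]

/-- The diagonal characters. -/
def chi (D : KData) (hT : D.Tri) (i : Fin 3) : D.Γ →* ℝ where
  toFun γ := lin γ.1 i i
  map_one' := by
    show lin 1 i i = 1
    simp [lin_one]
  map_mul' γ δ := by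
    show lin (γ.1 * δ.1) i i = lin γ.1 i i * lin δ.1 i i
    fin_cases i
    · exact mul00 (hT _ γ.2) (hT _ δ.2)
    · exact mul11 (hT _ γ.2) (hT _ δ.2)
    · exact mul22 (hT _ γ.2) (hT _ δ.2)

theorem chi_apply (D : KData) (hT : D.Tri) (i : Fin 3) (γ : D.Γ) : chi D hT i γ = lin γ.1 i i := rfl

end Pool.Agent.Helper82.K3.triApi
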